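import Pool.Agent.P.MP_a67bd8_gt.Cliff

/-!
A unitary matrix valued map on the five dimensional torus with nonzero winding number.
-/

namespace Pool.Agent.P.MP_a67bd8_gt

open Matrix Real Finset MeasureTheory
open scoped ContDiff Matrix.Norms.Operator

theorem pd_prod {f : Fin 5 → ℝ → ℝ} {f' : Fin 5 → ℝ} {x : Fin 5 → ℝ}
    (h : ∀ b, HasDerivAt (f b) (f' b) (x b)) (a : Fin 5) :
    pd (fun q => ∏ b, f b (q b)) a x = (∏ b ∈ univ.erase a, f b (x b)) * f' a := by
  have h1 := HasFDerivAt.finsetProd (u := univ) (g := fun b (q : Fin 5 → ℝ) => f b (q b))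
    fun b _ => (h b).comp_hasFDerivAt x (hasFDerivAt_apply (𝕜 := ℝ) b x)
  rw [pd, h1.fderiv, _root_.sum_apply, sum_eq_single a]
  · simp
  · intro b _ hb
    simp [hb]
  · simp

theorem det_arrow (v₀ : ℝ) (v t P : Fin 5 → ℝ) (hP : ∀ a, P a ≠ 0) :
    (Matrix.of (Fin.cons (Fin.cons v₀ v) fun a => Fin.cons (t a) (Pi.single a (P a)) :
      Fin 6 → Fin 6 → ℝ)).det = (v₀ - ∑ a, v a / P a * t a) * ∏ a, P a := by
  set B := Matrix.of (Fin.cons (Fin.cons v₀ v) fun a => Fin.cons (t a) (Pi.single a (P a)) :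
      Fin 6 → Fin 6 → ℝ) with hB
  have h := det_updateRow_sum B 0 (Fin.cons 1 fun a => -(v a / P a))
  have e : ∑ k, (Fin.cons 1 fun a => -(v a / P a) : Fin 6 → ℝ) k • B k =
      Fin.cons (v₀ - ∑ a, v a / P a * t a) 0 := by
    funext j
    rw [Fin.sum_univ_succ]
    refine Fin.cases ?_ (fun j => ?_) j
    · simp [hB, sub_eq_add_neg]
    · simp [hB, Pi.single_apply, hP]
  rw [e, Fin.cons_zero, one_smul, det_succ_row_zero, Fin.sum_univ_succ] at h
  rw [← h, ← det_diagonal]
  simp only [updateRow_self, Fin.cons_succ, Fin.cons_zero, Pi.zero_apply, mul_zero, zero_mul,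
    sum_const_zero, add_zero, Fin.val_zero, pow_zero, one_mul]
  congr 2
  ext i j
  simp [hB, Pi.single_apply, diagonal_apply, eq_comm]

/-- the factors of the coordinates -/
noncomputable def ph (e b : Fin 5) (t : ℝ) : ℝ := if b = e then sin t else 1 + cos t

/-- a map from the torus to the nonzero vectors -/
noncomputable def vv (x : Fin 5 → ℝ) : Fin 6 → ℝ :=
  Fin.cons (1 - ∏ b, (1 + cos (x b))) fun e => ∏ b, ph e b (x b)

theorem contDiff_vv : ContDiff ℝ ∞ vv := contDiff_pi.mpr fun i => by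
  refine Fin.cases ?_ (fun e => ?_) i
  · exact contDiff_const.sub (contDiff_prod fun b _ =>
      contDiff_const.add (contDiff_cos.comp (contDiff_apply ℝ ℝ b)))
  · change ContDiff ℝ ∞ fun x : Fin 5 → ℝ => ∏ b, ph e b (x b)
    refine contDiff_prod fun b _ => ?_
    unfold ph
    split_ifs
    · exact contDiff_sin.comp (contDiff_apply ℝ ℝ b)
    · exact contDiff_const.add (contDiff_cos.comp (contDiff_apply ℝ ℝ b))

theorem per_vv : Per vv := fun k x => by
  have hc : ∀ b, cos ((x + Pi.single k (2 * π) : Fin 5 → ℝ) b) = cos (x b) := fun b => by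
    by_cases h : b = k <;> simp [h]
  have hs : ∀ b, sin ((x + Pi.single k (2 * π) : Fin 5 → ℝ) b) = sin (x b) := fun b => by
    by_cases h : b = k <;> simp [h]
  simp only [vv, ph, hc, hs]

theorem vv_ne (x : Fin 5 → ℝ) : vv x ≠ 0 := fun h => by
  have h0 : ∏ b, (1 + cos (x b)) = 1 := (sub_eq_zero.mp (congrFun h 0)).symm
  have h1 : ∀ b, 1 + cos (x b) ≠ 0 := fun b =>
    prod_ne_zero_iff.mp (h0 ▸ one_ne_zero) b (mem_univ b)
  have h2 : ∀ e, 1 + cos (x e) = 2 := fun e => by
    obtain ⟨b, -, hb⟩ := prod_eq_zero_iff.mp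
      (show ∏ b, ph e b (x b) = 0 from congrFun h e.succ)
    unfold ph at hb
    split_ifs at hb with hbe
    · have := sin_sq_add_cos_sq (x b)
      rw [hb] at this
      have h3 : (1 + cos (x b)) * (1 - cos (x b)) = 0 := by linear_combination -this
      rw [← hbe]
      linarith [(mul_eq_zero.mp h3).resolve_left (h1 b)]
    · exact absurd hb (h1 b)
  simp only [h2] at h0
  norm_num at h0

theorem pd_vv (a : Fin 5) (x : Fin 5 → ℝ) : pd vv a x =
    Fin.cons ((∏ b ∈ univ.erase a, (1 + cos (x b))) * sin (x a))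
      fun e => (∏ b ∈ univ.erase a, ph e b (x b)) * if a = e then cos (x a) else -sin (x a) := by
  funext i
  refine (pd_clm (ContinuousLinearMap.proj (R := ℝ) (φ := fun _ : Fin 6 => ℝ) i)
    (contDiff_vv.differentiable (by simp) x) a).symm.trans ?_
  refine Fin.cases ?_ (fun e => ?_) i
  · have h := pd_prod (f := fun _ t => 1 + cos t) (x := x)
      (fun b => (hasDerivAt_cos (x b)).const_add 1) a
    change pd (fun q => 1 - ∏ b, (1 + cos (q b))) a x = _
    rw [pd, fderiv_const_sub, _root_.neg_apply, ← pd, h]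
    simp
  · refine pd_prod (f' := fun b => if b = e then cos (x b) else -sin (x b)) (fun b => ?_) a
    unfold ph
    split_ifs
    · exact hasDerivAt_sin _
    · exact (hasDerivAt_cos _).const_add 1

/-- the Jacobian determinant -/
noncomputable def jac (v : (Fin 5 → ℝ) → Fin 6 → ℝ) (x : Fin 5 → ℝ) : ℝ :=
  (Matrix.of (Fin.cons (v x) fun a => pd v a x : Fin 6 → Fin 6 → ℝ)).det

theorem jac_vv {x : Fin 5 → ℝ} (h : ∀ b, 1 + cos (x b) ≠ 0) : ∃ p, 0 < p ∧
    jac vv x = (1 - ∏ b, (1 + cos (x b)) - ∑ a, (1 - cos (x a))) * p := by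
  have hu : ∀ b, 0 < 1 + cos (x b) := fun b =>
    lt_of_le_of_ne (by linarith [neg_one_le_cos (x b)]) (h b).symm
  let P : Fin 5 → ℝ := fun a => ∏ b ∈ univ.erase a, (1 + cos (x b))
  have hP : ∀ a, 0 < P a := fun a => prod_pos fun b _ => hu b
  have hv : ∀ a, ∏ b ∈ univ.erase a, ph a b (x b) = P a := fun a =>
    prod_congr rfl fun b hb => if_neg (ne_of_mem_erase hb)
  refine ⟨∏ a, P a, prod_pos fun a _ => hP a, ?_⟩
  have h1 := det_arrow (1 - ∏ b, (1 + cos (x b))) (fun e => ∏ b, ph e b (x b))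
    (fun a => sin (x a) / (1 + cos (x a))) P fun a => (hP a).ne'
  rw [jac, det_eq_of_forall_row_eq_smul_add_const
    (Fin.cons 0 fun a => -(sin (x a) / (1 + cos (x a)))) 0 rfl, h1]
  · congr 2
    refine sum_congr rfl fun a _ => ?_
    rw [← mul_prod_erase univ _ (mem_univ a), hv, ph, if_pos rfl]
    have := h a
    have := (hP a).ne'
    field_simp
    linear_combination sin_sq_add_cos_sq (x a)
  · intro i j
    refine Fin.cases (by simp [vv]) (fun a => ?_) i
    have := h a
    simp only [of_apply, Fin.cons_succ, Fin.cons_zero, pd_vv]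
    refine Fin.cases ?_ (fun e => ?_) j
    · simp only [Fin.cons_zero]
      rw [← mul_prod_erase univ _ (mem_univ a)]
      field_simp
      ring
    · simp only [Fin.cons_succ]
      rw [← mul_prod_erase univ _ (mem_univ a)]
      by_cases hae : a = e
      · subst hae
        rw [hv, ph, if_pos rfl, if_pos rfl, Pi.single_eq_same]
        field_simp
        linear_combination P a * sin_sq_add_cos_sq (x a)
      · rw [ph, if_neg hae, if_neg hae, Pi.single_eq_of_ne' hae]
        field_simp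
        ring

theorem jac_vv_le (x : Fin 5 → ℝ) : jac vv x ≤ 0 := by
  by_cases h : ∀ b, 1 + cos (x b) ≠ 0
  · obtain ⟨p, hp, e⟩ := jac_vv h
    rw [e]
    refine mul_nonpos_of_nonpos_of_nonneg ?_ hp.le
    have h0 : ∀ a, 0 ≤ 1 - cos (x a) := fun a => by linarith [cos_le_one (x a)]
    by_cases h1 : 1 ≤ ∑ a, (1 - cos (x a))
    · linarith [prod_nonneg (s := univ) fun b _ =>
        show 0 ≤ 1 + cos (x b) by linarith [neg_one_le_cos (x b)]]
    · have h2 : 1 ≤ ∏ b, (1 + cos (x b)) := Finset.one_le_prod fun b _ => by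
        linarith [single_le_sum (f := fun a => 1 - cos (x a)) (fun a _ => h0 a) (mem_univ b)]
      linarith [sum_nonneg (s := univ) fun a _ => h0 a]
  · push Not at h
    obtain ⟨a, ha⟩ := h
    obtain ⟨b, hb⟩ := exists_ne a
    have hs : sin (x a) = 0 := by
      have := sin_sq_add_cos_sq (x a)
      rw [show cos (x a) = -1 by linarith] at this
      exact pow_eq_zero_iff two_ne_zero |>.mp (by linarith)
    have hm : a ∈ univ.erase b := mem_erase.mpr ⟨hb.symm, mem_univ a⟩
    refine (det_eq_zero_of_row_eq_zero b.succ fun j => ?_).le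
    simp only [of_apply, Fin.cons_succ, pd_vv]
    refine Fin.cases ?_ (fun e => ?_) j
    · rw [Fin.cons_zero, prod_eq_zero hm ha, zero_mul]
    · rw [Fin.cons_succ, prod_eq_zero hm, zero_mul]
      unfold ph
      split_ifs
      exacts [hs, ha]

theorem jac_vv_lt : jac vv (fun _ => π / 2) < 0 := by
  obtain ⟨p, hp, e⟩ := jac_vv (x := fun _ => π / 2) fun b => by simp
  rw [e]
  refine mul_neg_of_neg_of_pos ?_ hp
  simp

theorem jac_smul {v : (Fin 5 → ℝ) → Fin 6 → ℝ} {r : (Fin 5 → ℝ) → ℝ} {x : Fin 5 → ℝ}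
    (hv : DifferentiableAt ℝ v x) (hr : DifferentiableAt ℝ r x) (h : r x ≠ 0) :
    jac (fun q => r q • v q) x = r x ^ 6 * jac v x := by
  rw [jac, det_eq_of_forall_row_eq_smul_add_const
    (B := r x • Matrix.of (Fin.cons (v x) fun a => pd v a x : Fin 6 → Fin 6 → ℝ))
    (Fin.cons 0 fun a => pd r a x / r x) 0 rfl, det_smul, Fintype.card_fin, jac]
  intro i j
  refine Fin.cases (by simp) (fun a => ?_) i
  simp only [of_apply, Fin.cons_succ, Fin.cons_zero, pd, Matrix.smul_apply, smul_eq_mul]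
  rw [fderiv_fun_smul hr hv]
  simp
  field_simp

/-- the normalised map -/
noncomputable def yy (x : Fin 5 → ℝ) : Fin 6 → ℝ := (√(vv x ⬝ᵥ vv x))⁻¹ • vv x

theorem vv_pos (x : Fin 5 → ℝ) : 0 < vv x ⬝ᵥ vv x :=
  lt_of_le_of_ne (sum_nonneg fun _ _ => mul_self_nonneg _) fun h =>
    vv_ne x (dotProduct_self_eq_zero.mp h.symm)

theorem contDiff_nrm : ContDiff ℝ ∞ fun x => (√(vv x ⬝ᵥ vv x))⁻¹ :=
  ((ContDiff.sum fun i _ => (contDiff_pi.mp contDiff_vv i).mul
    (contDiff_pi.mp contDiff_vv i)).sqrt fun x => (vv_pos x).ne').inv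
      fun x => (sqrt_pos.mpr (vv_pos x)).ne'

theorem contDiff_yy : ContDiff ℝ ∞ yy := contDiff_nrm.smul contDiff_vv

theorem per_yy : Per yy := fun k x => by simp only [yy, per_vv k x]

theorem yy_one (x : Fin 5 → ℝ) : yy x ⬝ᵥ yy x = 1 := by
  have := sqrt_pos.mpr (vv_pos x)
  rw [yy, smul_dotProduct, dotProduct_smul, smul_eq_mul, smul_eq_mul]
  field_simp
  exact (sq_sqrt (vv_pos x).le).symm

theorem yy_pd (a : Fin 5) (x : Fin 5 → ℝ) : yy x ⬝ᵥ pd yy a x = 0 := by
  have d : ∀ i, DifferentiableAt ℝ (fun q => yy q i) x := fun i =>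
    (contDiff_pi.mp contDiff_yy i).differentiable (by simp) x
  have h : pd (fun q => ∑ i, yy q i * yy q i) a x = 0 := by
    rw [show (fun q => ∑ i, yy q i * yy q i) = fun _ => 1 from funext yy_one]
    simp [pd]
  rw [pd, fderiv_fun_sum fun i _ => (d i).fun_mul (d i), _root_.sum_apply] at h
  have e : ∀ i, fderiv ℝ (fun q => yy q i * yy q i) x (Pi.single a 1) =
      2 * (yy x i * pd yy a x i) := fun i => by
    have := pd_clm (ContinuousLinearMap.proj (R := ℝ) (φ := fun _ : Fin 6 => ℝ) i)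
      (contDiff_yy.differentiable (by simp) x) a
    rw [← pd, pd_mul (d i) (d i), show pd (fun q => yy q i) a x = pd yy a x i from this]
    ring
  simp only [e, ← mul_sum] at h
  exact (mul_eq_zero.mp h).resolve_left two_ne_zero

theorem integral_jac : ∫ x in Set.Icc (0 : Fin 5 → ℝ) fun _ => 2 * π, jac yy x ≠ 0 := by
  have e : ∀ x, jac yy x = (√(vv x ⬝ᵥ vv x))⁻¹ ^ 6 * jac vv x := fun x =>
    jac_smul (contDiff_vv.differentiable (by simp) x) (contDiff_nrm.differentiable (by simp) x)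
      (inv_ne_zero (sqrt_pos.mpr (vv_pos x)).ne')
  have hp : ∀ x, 0 < (√(vv x ⬝ᵥ vv x))⁻¹ ^ 6 := fun x =>
    pow_pos (inv_pos.mpr (sqrt_pos.mpr (vv_pos x))) 6
  have hc : Continuous fun x => -jac yy x := by
    refine (Continuous.matrix_det (continuous_pi fun i => ?_)).neg
    refine Fin.cases ?_ (fun a => ?_) i
    · exact contDiff_yy.continuous
    · exact (contDiff_pd contDiff_yy a).continuous
  have h := (setIntegral_pos_iff_support_of_nonneg_ae (μ := volume)
    (s := Set.Icc (0 : Fin 5 → ℝ) fun _ => 2 * π) (Filter.Eventually.of_forall fun x =>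
      neg_nonneg.mpr ((e x).trans_le (mul_nonpos_of_nonneg_of_nonpos (hp x).le (jac_vv_le x))))
    hc.continuousOn.integrableOn_Icc).mpr (by
      refine lt_of_lt_of_le ((hc.isOpen_support.inter
        (isOpen_set_pi Set.finite_univ fun _ _ => isOpen_Ioo (a := 0) (b := 2 * π))).measure_pos _
        ⟨fun _ => π / 2, ?_, fun _ _ => ⟨by positivity, by linarith [pi_pos]⟩⟩)
        (measure_mono (Set.inter_subset_inter_right _ fun x hx =>
          ⟨fun i => (hx i trivial).1.le, fun i => (hx i trivial).2.le⟩))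
      exact neg_ne_zero.mpr ((e _).trans_lt (mul_neg_of_pos_of_neg (hp _) jac_vv_lt)).ne)
  rw [integral_neg] at h
  exact (neg_pos.mp h).ne

/-- the Clifford map on real vectors -/
noncomputable def pR : (Fin 6 → ℝ) →L[ℝ] Matrix (Fin 4) (Fin 4) ℂ :=
  LinearMap.toContinuousLinearMap
    (pL.restrictScalars ℝ ∘ₗ Complex.ofRealCLM.toLinearMap.compLeft (Fin 6))

theorem pR_apply (u : Fin 6 → ℝ) : pR u = pM fun i => u i := rfl

theorem star_pR (u : Fin 6 → ℝ) : star (pR u) = qM fun i => u i := by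
  ext i j
  fin_cases i <;> fin_cases j <;> simp [pR_apply, pM, qM] <;> ring

theorem dot_ofReal (u w : Fin 6 → ℝ) :
    ((fun i => (u i : ℂ)) ⬝ᵥ fun i => (w i : ℂ)) = ((u ⬝ᵥ w : ℝ) : ℂ) := by
  simp [dotProduct]

theorem wind_pR : wind (trL (Fin 4)) (fun x => pR (yy x)) ≠ 0 := by
  obtain ⟨C, hC, h⟩ := alt_clifford
  have h1 : ∀ x, ((fun i => (yy x i : ℂ)) ⬝ᵥ fun i => (yy x i : ℂ)) = 1 := fun x => by
    rw [dot_ofReal, yy_one, Complex.ofReal_one]
  have e : om (trL (Fin 4)) (fun x => pR (yy x)) = fun x => C * (jac yy x : ℝ) := by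
    funext x
    have hm : (fun k => mc (fun x => pR (yy x)) k x) =
        fun k => (qM fun i => yy x i) * pM fun i => pd yy k x i := funext fun k =>
      mc_eq (IsUnit.of_mul_eq_one _ (pq_one (h1 x))) (by
        refine Eq.trans ?_ (pd_clm pR (contDiff_yy.differentiable (by simp) x) k).symm
        rw [pR_apply, ← mul_assoc, pq_one (h1 x), one_mul]
        rfl)
    rw [om, hm]
    refine (h _ (fun k i => pd yy k x i) (h1 x) fun k => by
      rw [dot_ofReal, yy_pd, Complex.ofReal_zero]).trans (congrArg _ ?_)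
    refine Eq.trans ?_ (Complex.ofRealHom.map_det _).symm
    congr 1
    ext i j
    refine Fin.cases rfl (fun _ => rfl) i
  rw [wind, e, integral_const_mul, integral_complex_ofReal]
  exact mul_ne_zero hC (Complex.ofReal_ne_zero.mpr integral_jac)

theorem stC : StC (Fin 4) :=
  ⟨fun x => pR (yy x), contDiff_mat.mp (pR.contDiff.comp contDiff_yy),
    fun k x => by simp only [per_yy k x],
    fun x => by
      rw [star_pR]
      exact qp_one (by rw [dot_ofReal, yy_one, Complex.ofReal_one]),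
    wind_pR⟩

end Pool.Agent.P.MP_a67bd8_gt
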