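import Pool.Agent.P.MP_a67bd8_gt.C

/-!
Reduction of the Clifford map to three by three matrices.
-/

namespace Pool.Agent.P.MP_a67bd8_gt

open Matrix Complex
open scoped ContDiff Matrix.Norms.Operator

theorem wind_reindex {ι κ : Type} [Fintype ι] [DecidableEq ι] [Fintype κ] [DecidableEq κ]
    (e : ι ≃ κ) {S : (Fin 5 → ℝ) → Matrix ι ι ℂ} (h : Adm S) :
    wind (trL κ) (fun x => reindex e e (S x)) = wind (trL ι) S := by
  let ψ := reindexAlgEquiv ℝ ℂ e
  have key : ∀ k x, mc (fun x => ψ (S x)) k x = ψ (mc S k x) := fun k x =>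
    mc_eq ((h.un x).map ψ) (by
      rw [← map_mul, mul_mc (h.un x)]
      exact (pd_clm (LinearMap.toContinuousLinearMap ψ.toLinearEquiv.toLinearMap)
        (h.sm.differentiable (by simp) x) k).symm)
  change wind (trL κ) (fun x => ψ (S x)) = _
  unfold wind
  congr 1
  funext x
  have ht : ∀ M, trL κ (ψ M) = trL ι M := fun M => e.symm.sum_comp fun i => M i i
  unfold om alt
  refine Finset.sum_congr rfl fun σ _ => congrArg _ ?_
  simp only [key, pr5, Function.comp_apply, ← map_mul]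
  exact ht _

/-- the generator of the fifth homotopy group of `SU(3)` -/
def g3 (z w : Fin 3 → ℂ) : Matrix (Fin 3) (Fin 3) ℂ :=
  !![z 0 * z 0, z 0 * z 1 + w 2, z 0 * z 2 - w 1;
    z 1 * z 0 - w 2, z 1 * z 1, z 1 * z 2 + w 0;
    z 2 * z 0 + w 1, z 2 * z 1 - w 0, z 2 * z 2]

/-- the homotopy -/
def h4 (c s : ℂ) (z w : Fin 3 → ℂ) : Matrix (Fin 4) (Fin 4) ℂ :=
  !![c, s * z 0, s * z 1, s * z 2;
    -(s * z 0), c * (z 0 * z 0), c * (z 0 * z 1) + w 2, c * (z 0 * z 2) - w 1;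
    -(s * z 1), c * (z 1 * z 0) - w 2, c * (z 1 * z 1), c * (z 1 * z 2) + w 0;
    -(s * z 2), c * (z 2 * z 0) + w 1, c * (z 2 * z 1) - w 0, c * (z 2 * z 2)]

theorem det_h4 (c s : ℂ) (z w : Fin 3 → ℂ) :
    (h4 c s z w).det = (c ^ 2 + s ^ 2) * (z 0 * w 0 + z 1 * w 1 + z 2 * w 2) ^ 2 := by
  simp [h4, det_succ_row_zero, Fin.sum_univ_succ, Fin.succAbove]
  ring

theorem g3_unitary {z w : Fin 3 → ℂ} (h : z 0 * w 0 + z 1 * w 1 + z 2 * w 2 = 1) :
    g3 w (-z) * g3 z w = 1 := by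
  ext i j
  fin_cases i <;> fin_cases j <;> simp [g3]
  · linear_combination (1 + w 0 * z 0) * h
  · linear_combination (w 0 * z 1) * h
  · linear_combination (w 0 * z 2) * h
  · linear_combination (w 1 * z 0) * h
  · linear_combination (1 + w 1 * z 1) * h
  · linear_combination (w 1 * z 2) * h
  · linear_combination (w 2 * z 0) * h
  · linear_combination (w 2 * z 1) * h
  · linear_combination (1 + w 2 * z 2) * h

/-- complex coordinates -/
noncomputable def zz (x : Fin 5 → ℝ) : Fin 3 → ℂ :=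
  ![yy x 0 + I * yy x 1, yy x 2 + I * yy x 3, yy x 4 + I * yy x 5]

/-- their conjugates -/
noncomputable def ww (x : Fin 5 → ℝ) : Fin 3 → ℂ :=
  ![yy x 0 - I * yy x 1, yy x 2 - I * yy x 3, yy x 4 - I * yy x 5]

theorem zz_ww (x : Fin 5 → ℝ) : zz x 0 * ww x 0 + zz x 1 * ww x 1 + zz x 2 * ww x 2 = 1 := by
  have h := congrArg ((↑) : ℝ → ℂ) (yy_one x)
  simp [dotProduct, Fin.sum_univ_succ] at h
  simp [zz, ww]
  linear_combination h - ((yy x 1 : ℂ) ^ 2 + (yy x 3 : ℂ) ^ 2 + (yy x 5 : ℂ) ^ 2) * I_mul_I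

theorem contDiff_yc (i : Fin 6) : ContDiff ℝ ∞ fun x => (yy x i : ℂ) :=
  ofRealCLM.contDiff.comp (contDiff_pi.mp contDiff_yy i)

theorem contDiff_zz (i : Fin 3) : ContDiff ℝ ∞ fun x => zz x i := by
  fin_cases i <;> exact (contDiff_yc _).add (contDiff_const.mul (contDiff_yc _))

theorem contDiff_ww (i : Fin 3) : ContDiff ℝ ∞ fun x => ww x i := by
  fin_cases i <;> exact (contDiff_yc _).sub (contDiff_const.mul (contDiff_yc _))

theorem stC3 : StC (Fin 3) := by
  have sz := contDiff_zz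
  have sw := contDiff_ww
  have hs : ∀ i j, ContDiff ℝ ∞ fun x => g3 (zz x) (ww x) i j := fun i j => by
    fin_cases i <;> fin_cases j <;> simp [g3] <;> fun_prop
  have hp : ∀ k x, zz (x + Pi.single k (2 * Real.pi)) = zz x ∧
      ww (x + Pi.single k (2 * Real.pi)) = ww x := fun k x => by
    simp only [zz, ww, per_yy k x, and_self]
  have hu : ∀ x, star (g3 (zz x) (ww x)) * g3 (zz x) (ww x) = 1 := fun x => by
    rw [← g3_unitary (zz_ww x)]
    congr 1
    ext i j
    fin_cases i <;> fin_cases j <;> simp [g3, zz, ww] <;> ring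
  have a : Adm fun x => g3 (zz x) (ww x) :=
    ⟨contDiff_mat.mpr hs, fun x => IsUnit.of_mul_eq_one_right _ (hu x),
      fun k x => by simp only [hp k x]⟩
  refine ⟨fun x => g3 (zz x) (ww x), hs, a.per, hu, fun h0 => wind_pR ?_⟩
  have one : Adm fun _ : Fin 5 → ℝ => (1 : Matrix (Fin 1) (Fin 1) ℂ) := adm_const isUnit_one
  have h1 := wind_homotopy (trL (Fin 4)) trL_comm
    (fun t x => h4 (1 - (t : ℝ)) (t : ℝ) (zz x) (ww x))
    (contDiff_mat.mpr fun i j => by
      have st : ContDiff ℝ ∞ fun z : ℝ × (Fin 5 → ℝ) => (z.1 : ℂ) :=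
        ofRealCLM.contDiff.comp contDiff_fst
      have sz := fun i => (sz i).comp (contDiff_snd (E := ℝ))
      have sw := fun i => (sw i).comp (contDiff_snd (E := ℝ))
      simp only [Function.comp_def] at sz sw
      fin_cases i <;> fin_cases j <;> simp [h4] <;> fun_prop).contDiffOn
    (fun t _ x => by
      rw [isUnit_iff_isUnit_det, det_h4, zz_ww, isUnit_iff_ne_zero]
      have : (1 - t) ^ 2 + t ^ 2 ≠ 0 := by nlinarith [sq_nonneg (1 - 2 * t)]
      exact_mod_cast (by simpa using this))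
    fun t _ k x => by simp only [hp k x]
  have e0 : (fun x => h4 (1 - ((0 : ℝ) : ℂ)) ((0 : ℝ) : ℂ) (zz x) (ww x)) = fun x =>
      reindex finSumFinEquiv finSumFinEquiv (fromBlocks (1 : Matrix (Fin 1) (Fin 1) ℂ) 0 0
        (g3 (zz x) (ww x))) := by
    funext x
    rw [← Equiv.symm_apply_eq]
    ext (i | i) (j | j) <;> fin_cases i <;> fin_cases j <;> simp [h4, g3] <;> rfl
  have e1 : (fun x => h4 (1 - ((1 : ℝ) : ℂ)) ((1 : ℝ) : ℂ) (zz x) (ww x)) = fun x => pR (yy x) := by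
    funext x
    ext i j
    fin_cases i <;> fin_cases j <;> simp [h4, pR_apply, pM, zz, ww]
  rw [← e1, ← h1, e0]
  refine (wind_reindex finSumFinEquiv (one.blocks a)).trans ?_
  rw [wind_blocks one a, wind_const, h0, add_zero]

end Pool.Agent.P.MP_a67bd8_gt
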