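import Pool.Agent.P.MP_a67bd8_gt.Defs

/-!
The Clifford map `ℂ ^ 6 → M₄(ℂ)` and the alternating trace of six factors.
-/

namespace Pool.Agent.P.MP_a67bd8_gt

open Equiv Matrix Complex
open scoped Matrix.Norms.Operator

section Alt

variable {X : Type}

theorem sign_of_adj {n : ℕ} (F : (Fin (n + 1) → X) → ℂ) (R : X → X → Prop)
    (h : ∀ b (i : Fin n), R (b i.castSucc) (b i.succ) → F (b ∘ swap i.castSucc i.succ) = -F b)
    (b : Fin (n + 1) → X) (hb : ∀ i j, i ≠ j → R (b i) (b j)) (σ : Perm (Fin (n + 1))) :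
    F (b ∘ σ) = ((Perm.sign σ : ℤ) : ℂ) * F b := by
  have hσ : σ ∈ Submonoid.closure
      (Set.range fun i : Fin n => swap i.castSucc i.succ) := by
    rw [Perm.mclosure_swap_castSucc_succ]; trivial
  induction hσ using Submonoid.closure_induction_right with
  | one => simp
  | mul_right x _ y hy ih =>
    obtain ⟨i, rfl⟩ := hy
    have hi : i.castSucc ≠ i.succ := Fin.castSucc_lt_succ.ne
    rw [Perm.coe_mul, ← Function.comp_assoc, h (b ∘ x) i (hb _ _ (x.injective.ne hi)), ih,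
      Perm.sign_mul, Perm.sign_swap hi]
    simp

theorem alt_cons {n : ℕ} (F : (Fin (n + 1) → X) → ℂ) (v : X) (w : Fin n → X)
    (h : ∀ (τ : Perm (Fin n)) (j : Fin (n + 1)),
      F (j.insertNth v (w ∘ τ)) = (-1) ^ (j : ℕ) * F (Fin.cons v (w ∘ τ))) :
    alt F (Fin.cons v w) = (n + 1) * alt (fun c => F (Fin.cons v c)) w := by
  let Φ : Fin (n + 1) × Perm (Fin n) → Perm (Fin (n + 1)) := fun z =>
    Perm.decomposeFin.symm (0, z.2) * z.1.cycleRange
  have h0 : ∀ z, Φ z z.1 = 0 := fun z => by simp [Φ]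
  have hΦ : Function.Bijective Φ := by
    refine (Fintype.bijective_iff_injective_and_card _).mpr
      ⟨?_, Fintype.card_congr Perm.decomposeFin.symm⟩
    rintro ⟨j, τ⟩ ⟨j', τ'⟩ e
    obtain rfl : j = j' := (Φ (j, τ)).injective ((h0 (j, τ)).trans (e ▸ h0 (j', τ')).symm)
    have := Perm.decomposeFin.symm.injective (mul_right_cancel e)
    exact Prod.ext rfl (Prod.ext_iff.mp this).2
  rw [alt, ← hΦ.sum_comp, Fintype.sum_prod_type, Finset.sum_congr rfl
    (g := fun _ => alt (fun c => F (Fin.cons v c)) w), Finset.sum_const]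
  · simp
  · intro j _
    refine Finset.sum_congr rfl fun τ _ => ?_
    have e : (Fin.cons v w : Fin (n + 1) → X) ∘ Φ (j, τ) = j.insertNth v (w ∘ τ) := by
      rw [← Fin.cons_comp_cycleRange, Perm.coe_mul, ← Function.comp_assoc]
      congr 1
      funext k
      refine Fin.cases ?_ (fun k => ?_) k <;> simp
    have e2 : ((-1 : ℂ) ^ (j : ℕ)) * (-1) ^ (j : ℕ) = 1 := by
      rw [← mul_pow]; simp
    rw [e, h]
    simp only [Φ, Perm.sign_mul, Perm.decomposeFin.symm_sign, if_true, one_mul,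
      Fin.sign_cycleRange, Units.val_mul, Int.cast_mul, Units.val_pow_eq_pow_val, Units.val_neg,
      Units.val_one, Int.cast_pow, Int.cast_neg, Int.cast_one]
    linear_combination (((Perm.sign τ : ℤ) : ℂ) * F (Fin.cons v (w ∘ τ))) * e2

end Alt

/-- the self dual antisymmetric matrix of a vector -/
def pM (u : Fin 6 → ℂ) : Matrix (Fin 4) (Fin 4) ℂ :=
  !![0, u 0 + I * u 1, u 2 + I * u 3, u 4 + I * u 5;
    -(u 0 + I * u 1), 0, u 4 - I * u 5, -(u 2 - I * u 3);
    -(u 2 + I * u 3), -(u 4 - I * u 5), 0, u 0 - I * u 1;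
    -(u 4 + I * u 5), u 2 - I * u 3, -(u 0 - I * u 1), 0]

/-- its adjoint -/
def qM (u : Fin 6 → ℂ) : Matrix (Fin 4) (Fin 4) ℂ :=
  !![0, -(u 0 - I * u 1), -(u 2 - I * u 3), -(u 4 - I * u 5);
    u 0 - I * u 1, 0, -(u 4 + I * u 5), u 2 + I * u 3;
    u 2 - I * u 3, u 4 + I * u 5, 0, -(u 0 + I * u 1);
    u 4 - I * u 5, -(u 2 + I * u 3), u 0 + I * u 1, 0]

theorem qp_add (u w : Fin 6 → ℂ) : qM u * pM w + qM w * pM u = (2 * (u ⬝ᵥ w)) • 1 := by
  ext i j
  fin_cases i <;> fin_cases j <;>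
    simp [pM, qM, Fin.sum_univ_succ, dotProduct] <;> ring_nf <;> simp <;> ring

theorem pq_add (u w : Fin 6 → ℂ) : pM u * qM w + pM w * qM u = (2 * (u ⬝ᵥ w)) • 1 := by
  ext i j
  fin_cases i <;> fin_cases j <;>
    simp [pM, qM, Fin.sum_univ_succ, dotProduct] <;> ring_nf <;> simp <;> ring

theorem qp_anti {u w : Fin 6 → ℂ} (h : u ⬝ᵥ w = 0) (Y : Matrix (Fin 4) (Fin 4) ℂ) :
    qM w * (pM u * Y) = -(qM u * (pM w * Y)) := by
  have := qp_add u w
  rw [h, mul_zero, zero_smul] at this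
  rw [← mul_assoc, ← mul_assoc, eq_neg_of_add_eq_zero_right this, neg_mul]

theorem pq_anti {u w : Fin 6 → ℂ} (h : u ⬝ᵥ w = 0) (Y : Matrix (Fin 4) (Fin 4) ℂ) :
    pM w * (qM u * Y) = -(pM u * (qM w * Y)) := by
  have := pq_add u w
  rw [h, mul_zero, zero_smul] at this
  rw [← mul_assoc, ← mul_assoc, eq_neg_of_add_eq_zero_right this, neg_mul]

theorem pq_one {u : Fin 6 → ℂ} (h : u ⬝ᵥ u = 1) : pM u * qM u = 1 := by
  have := pq_add u u
  rw [h, mul_one, ← two_smul ℂ] at this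
  exact smul_right_injective _ two_ne_zero this

theorem qp_one {u : Fin 6 → ℂ} (h : u ⬝ᵥ u = 1) : qM u * pM u = 1 := mul_eq_one_comm.mp (pq_one h)

/-- the trace of six factors -/
noncomputable def T6 (b : Fin 6 → Fin 6 → ℂ) : ℂ :=
  (qM (b 0) * (pM (b 1) * (qM (b 2) * (pM (b 3) * (qM (b 4) * (pM (b 5) * 1)))))).trace

theorem T6_adj (b : Fin 6 → Fin 6 → ℂ) (i : Fin 5) (h : b i.castSucc ⬝ᵥ b i.succ = 0) :
    T6 (b ∘ swap i.castSucc i.succ) = -T6 b := by
  fin_cases i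
  · exact (congrArg trace (qp_anti (u := b 0) (w := b 1) h _)).trans (trace_neg _)
  · change (qM (b 0) * (pM (b 2) * (qM (b 1) * _))).trace = _
    rw [pq_anti (u := b 1) (w := b 2) h, mul_neg, trace_neg]; rfl
  · change (qM (b 0) * (pM (b 1) * (qM (b 3) * (pM (b 2) * _)))).trace = _
    rw [qp_anti (u := b 2) (w := b 3) h, mul_neg, mul_neg, trace_neg]; rfl
  · change (qM (b 0) * (pM (b 1) * (qM (b 2) * (pM (b 4) * (qM (b 3) * _))))).trace = _
    rw [pq_anti (u := b 3) (w := b 4) h, mul_neg, mul_neg, mul_neg, trace_neg]; rfl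
  · change (qM (b 0) * (pM (b 1) * (qM (b 2) * (pM (b 3) * (qM (b 5) * (pM (b 4) * _)))))).trace = _
    rw [qp_anti (u := b 4) (w := b 5) h, mul_neg, mul_neg, mul_neg, mul_neg, trace_neg]; rfl

theorem T6_ins (v : Fin 6 → ℂ) (c : Fin 5 → Fin 6 → ℂ) (h : ∀ k, v ⬝ᵥ c k = 0) (j : Fin 6) :
    T6 (j.insertNth v c) = (-1) ^ (j : ℕ) * T6 (Fin.cons v c) := by
  have h1 := fun k => qp_anti (h k)
  have h2 := fun k => pq_anti (h k)
  have e : T6 (Fin.cons v c) =
    (qM v * (pM (c 0) * (qM (c 1) * (pM (c 2) * (qM (c 3) * (pM (c 4) * 1)))))).trace := rfl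
  rw [e]
  fin_cases j
  · change (qM v * (pM (c 0) * (qM (c 1) * (pM (c 2) * (qM (c 3) * (pM (c 4) * 1)))))).trace = _
    simp
  · change (qM (c 0) * (pM v * (qM (c 1) * (pM (c 2) * (qM (c 3) * (pM (c 4) * 1)))))).trace = _
    simp only [h1, trace_neg]; norm_num
  · change (qM (c 0) * (pM (c 1) * (qM v * (pM (c 2) * (qM (c 3) * (pM (c 4) * 1)))))).trace = _
    simp only [h1, h2, mul_neg, trace_neg]; norm_num
  · change (qM (c 0) * (pM (c 1) * (qM (c 2) * (pM v * (qM (c 3) * (pM (c 4) * 1)))))).trace = _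
    simp only [h1, h2, mul_neg, trace_neg]; norm_num
  · change (qM (c 0) * (pM (c 1) * (qM (c 2) * (pM (c 3) * (qM v * (pM (c 4) * 1)))))).trace = _
    simp only [h1, h2, mul_neg, trace_neg]; norm_num
  · change (qM (c 0) * (pM (c 1) * (qM (c 2) * (pM (c 3) * (qM (c 4) * (pM v * 1)))))).trace = _
    simp only [h1, h2, mul_neg, trace_neg]; norm_num

theorem T6_basis : T6 (Pi.basisFun ℂ (Fin 6)) ≠ 0 := by
  have e : ∀ i j : Fin 6, Pi.basisFun ℂ (Fin 6) i j = if j = i then 1 else 0 := fun i j => by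
    simp [Pi.single_apply]
  simp [T6, pM, qM, e, trace, Fin.sum_univ_succ, Complex.ext_iff]
  norm_num

/-- the first map is linear -/
noncomputable def pL : (Fin 6 → ℂ) →ₗ[ℂ] Matrix (Fin 4) (Fin 4) ℂ where
  toFun := pM
  map_add' u w := by
    ext i j
    fin_cases i <;> fin_cases j <;> simp [pM] <;> ring
  map_smul' c u := by
    ext i j
    fin_cases i <;> fin_cases j <;> simp [pM] <;> ring

/-- the second map is linear -/
noncomputable def qL : (Fin 6 → ℂ) →ₗ[ℂ] Matrix (Fin 4) (Fin 4) ℂ where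
  toFun := qM
  map_add' u w := by
    ext i j
    fin_cases i <;> fin_cases j <;> simp [qM] <;> ring
  map_smul' c u := by
    ext i j
    fin_cases i <;> fin_cases j <;> simp [qM] <;> ring

theorem alt_T6 : ∃ C : ℂ, C ≠ 0 ∧ ∀ b, alt T6 b = C * (Matrix.of b).det := by
  let m : MultilinearMap ℂ (fun _ : Fin 6 => Fin 6 → ℂ) ℂ :=
    (traceLinearMap (Fin 4) ℂ ℂ).compMultilinearMap
      ((MultilinearMap.mkPiAlgebraFin ℂ 6 _).compLinearMap ![qL, pL, qL, pL, qL, pL])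
  have hm : ∀ b, MultilinearMap.alternatization m b = alt T6 b := fun b => by
    rw [MultilinearMap.alternatization_apply, alt]
    refine Finset.sum_congr rfl fun σ _ => ?_
    rw [Units.smul_def, zsmul_eq_mul]
    rfl
  refine ⟨alt T6 (Pi.basisFun ℂ (Fin 6)), ?_, fun b => ?_⟩
  · have hs := sign_of_adj T6 (fun u w => u ⬝ᵥ w = 0) T6_adj (Pi.basisFun ℂ (Fin 6))
      fun i j hij => by simp [hij]
    have e : ∀ σ : Perm (Fin 6), ((Perm.sign σ : ℤ) : ℂ) * ((Perm.sign σ : ℤ) : ℂ) = 1 :=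
      fun σ => by rw [← Int.cast_mul, ← Units.val_mul, Int.units_mul_self]; simp
    simp only [alt, hs, ← mul_assoc, e, one_mul, Finset.sum_const, nsmul_eq_mul]
    exact mul_ne_zero (Nat.cast_ne_zero.mpr (Finset.card_ne_zero.mpr Finset.univ_nonempty)) T6_basis
  · rw [← hm, ← hm, ← Pi.basisFun_det_apply]
    generalize MultilinearMap.alternatization m = f
    exact DFunLike.congr_fun (f.eq_smul_basis_det (Pi.basisFun ℂ (Fin 6))) b

/-- the five form of the Clifford map is a nonzero multiple of the volume form -/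
theorem alt_clifford : ∃ C : ℂ, C ≠ 0 ∧ ∀ (v : Fin 6 → ℂ) (w : Fin 5 → Fin 6 → ℂ), v ⬝ᵥ v = 1 →
    (∀ k, v ⬝ᵥ w k = 0) → alt (fun B => (pr5 B).trace) (fun k => qM v * pM (w k)) =
      C * (Matrix.of (Fin.cons v w : Fin 6 → Fin 6 → ℂ)).det := by
  obtain ⟨C, hC, h⟩ := alt_T6
  refine ⟨C / 6, div_ne_zero hC (by norm_num), fun v w hv hw => ?_⟩
  have h1 := alt_cons T6 v w fun τ j => T6_ins v _ (fun k => hw _) j
  have h2 : alt (fun B => (pr5 B).trace) (fun k => qM v * pM (w k)) =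
      alt (fun c => T6 (Fin.cons v c)) w := by
    refine Finset.sum_congr rfl fun σ _ => congrArg _ ?_
    have a : ∀ k Y, qM v * (pM (w k) * (qM v * Y)) = -(qM (w k) * Y) := fun k Y => by
      rw [pq_anti (hw k), mul_neg, ← mul_assoc, qp_one hv, one_mul]
    change (qM v * pM (w (σ 0)) * (qM v * pM (w (σ 1))) * (qM v * pM (w (σ 2))) *
      (qM v * pM (w (σ 3))) * (qM v * pM (w (σ 4)))).trace = (qM v * (pM (w (σ 0)) *
        (qM (w (σ 1)) * (pM (w (σ 2)) * (qM (w (σ 3)) * (pM (w (σ 4)) * 1)))))).trace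
    simp only [mul_assoc, mul_one]
    rw [a (σ 3), a (σ 1)]
    simp only [mul_neg, neg_neg]
  rw [h2, h] at *
  linear_combination -h1 / 6

end Pool.Agent.P.MP_a67bd8_gt
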