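import Pool.Agent.P.MP_a67bd8_gt.Defs

/-! General tools: descent to the torus, isotropic frames, transposition, reindexing. -/

namespace Pool.Agent.P.MP_a67bd8_gt.D

open Set Matrix Equiv
open scoped ContDiff Matrix.Norms.Operator

set_option linter.unusedSectionVars false

variable {ι : Type} [Fintype ι] [DecidableEq ι]

theorem per_cov {V : Type} {φ : (ι → ℝ) → V} (h : Per φ) {x y : ι → ℝ} (hxy : cov x = cov y) :
    φ x = φ y := by
  choose m hm using fun j => Circle.exp_eq_exp.mp (congrFun hxy j)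
  have e : x = y + ∑ j, m j • Pi.single j (2 * Real.pi) := by
    funext j
    simp [Finset.sum_apply, Pi.single_apply, hm j]
  have hp : Function.Periodic φ (∑ j, m j • Pi.single j (2 * Real.pi)) :=
    Finset.sum_induction _ (Function.Periodic φ) (fun _ _ => Function.Periodic.add_period)
      (fun _ => by rw [add_zero]) fun j _ => Function.Periodic.zsmul (h j) (m j)
  rw [e, hp]

/-- descent of a periodic map -/
noncomputable def desc {V : Type} (φ : (ι → ℝ) → V) (c : ι → Circle) : V :=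
  φ fun j => Complex.arg (c j)

theorem cov_arg (c : ι → Circle) : cov (fun j => Complex.arg (c j)) = c :=
  funext fun j => Circle.exp_arg (c j)

theorem desc_cov {V : Type} {φ : (ι → ℝ) → V} (h : Per φ) (x : ι → ℝ) : desc φ (cov x) = φ x :=
  per_cov h (cov_arg _)

theorem per_bdd {φ : (ι → ℝ) → ℝ} (h : Per φ) (hc : Continuous φ) : ∃ C, ∀ x, |φ x| ≤ C := by
  obtain ⟨C, hC⟩ := (isCompact_Icc (a := fun _ : ι => -Real.pi)
    (b := fun _ => Real.pi)).exists_bound_of_continuousOn hc.continuousOn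
  refine ⟨C, fun x => ?_⟩
  rw [← desc_cov h x]
  exact hC _ ⟨fun j => (Complex.neg_pi_lt_arg _).le, fun j => Complex.arg_le_pi _⟩

/-- the symplectic form as a continuous bilinear map -/
noncomputable def sy (ι : Type) [Fintype ι] : (ι → ℂ) →L[ℝ] (ι → ℂ) →L[ℝ] ℝ :=
  (LinearMap.mk₂ ℝ sympl
    (fun a b c => by
      simp only [sympl, ← Finset.sum_add_distrib, Pi.add_apply, Complex.add_im, Complex.add_re]
      exact Finset.sum_congr rfl fun j _ => by ring)
    (fun a b c => by
      simp only [sympl, Pi.smul_apply, Complex.smul_im, Complex.smul_re, smul_eq_mul,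
        Finset.mul_sum]
      exact Finset.sum_congr rfl fun j _ => by ring)
    (fun a b c => by
      simp only [sympl, ← Finset.sum_add_distrib, Pi.add_apply, Complex.add_im, Complex.add_re]
      exact Finset.sum_congr rfl fun j _ => by ring)
    (fun a b c => by
      simp only [sympl, Pi.smul_apply, Complex.smul_im, Complex.smul_re, smul_eq_mul,
        Finset.mul_sum]
      exact Finset.sum_congr rfl fun j _ => by ring)).toContinuousBilinearMap

theorem sy_apply (u v : ι → ℂ) : sy ι u v = sympl u v := rfl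

theorem sympl_anti (u v : ι → ℂ) : sympl u v = -sympl v u := by
  simp only [sympl, ← Finset.sum_neg_distrib]
  exact Finset.sum_congr rfl fun j _ => by ring

theorem sympl_eq (u v : ι → ℂ) : sympl u v = (star v ⬝ᵥ u).im := by
  simp only [sympl, dotProduct, Complex.im_sum, Pi.star_apply, Complex.mul_im, Complex.star_def,
    Complex.conj_re, Complex.conj_im]
  exact Finset.sum_congr rfl fun j _ => by ring

theorem sympl_unitary {g : Matrix ι ι ℂ} (hg : star g * g = 1) (u v : ι → ℂ) :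
    sympl (g *ᵥ u) (g *ᵥ v) = sympl u v := by
  rw [sympl_eq, sympl_eq, star_mulVec, dotProduct_mulVec, vecMul_vecMul, ← star_eq_conjTranspose,
    hg, vecMul_one]

theorem mulVec_real (G : Matrix ι ι ℂ) (v : ι → ℝ) :
    G *ᵥ (fun a => (v a : ℂ)) = ∑ a, v a • fun j => G j a := by
  funext j
  simp [mulVec, dotProduct, Finset.sum_apply, mul_comm]

theorem sympl_real {G : Matrix ι ι ℂ} (h1 : ∀ a b, sympl (fun j => G j a) (fun j => G j b) = 0)
    (u v : ι → ℝ) : sympl (G *ᵥ fun a => (u a : ℂ)) (G *ᵥ fun a => (v a : ℂ)) = 0 := by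
  rw [mulVec_real, mulVec_real, ← sy_apply]
  simp [sy_apply, h1]

theorem isUnit_of_iso {G : Matrix ι ι ℂ}
    (h1 : ∀ a b, sympl (fun j => G j a) (fun j => G j b) = 0)
    (h2 : ∀ v : ι → ℝ, G *ᵥ (fun a => (v a : ℂ)) = 0 → v = 0) : IsUnit G := by
  rw [← mulVec_injective_iff_isUnit]
  refine (injective_iff_map_eq_zero G.mulVecLin).mpr fun v hv => ?_
  have e : v = (fun a => ((v a).re : ℂ)) + Complex.I • fun a => ((v a).im : ℂ) := by
    funext a
    simp [mul_comm Complex.I]
  rw [mulVecLin_apply, e, mulVec_add, mulVec_smul, add_eq_zero_iff_eq_neg] at hv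
  have h3 := sympl_real h1 (fun a => (v a).re) fun a => (v a).im
  rw [hv] at h3
  generalize hz : G *ᵥ (fun a => (((v a).im : ℝ) : ℂ)) = z at h3 hv
  have h4 : ∑ j, Complex.normSq (z j) = 0 := by
    rw [← neg_eq_zero, ← h3, sympl, ← Finset.sum_neg_distrib]
    refine Finset.sum_congr rfl fun j _ => ?_
    simp [Complex.normSq_apply]
    ring
  have h5 : z = 0 := funext fun j => Complex.normSq_eq_zero.mp
    ((Finset.sum_eq_zero_iff_of_nonneg fun j _ => Complex.normSq_nonneg _).mp h4 j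
      (Finset.mem_univ j))
  rw [h5, smul_zero, neg_zero] at hv
  rw [h5] at hz
  funext a
  exact Complex.ext (congrFun (h2 _ hv) a) (congrFun (h2 _ hz) a)

theorem fderiv_eq_frame (φ : (ι → ℝ) → ι → ℂ) (x u : ι → ℝ) :
    fderiv ℝ φ x u = frame φ x *ᵥ fun a => (u a : ℂ) := by
  rw [mulVec_real]
  nth_rw 1 [pi_eq_sum_univ' u]
  simp only [map_sum, map_smul]
  rfl

theorem pd_sympl {κ : Type} [Fintype κ] {φ ψ : (ι → ℝ) → κ → ℂ}
    {x : ι → ℝ} (h : DifferentiableAt ℝ φ x) (h' : DifferentiableAt ℝ ψ x) (a : ι) :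
    pd (fun y => sympl (φ y) (ψ y)) a x = sympl (φ x) (pd ψ a x) + sympl (pd φ a x) (ψ x) :=
  congrArg (fun T => T (Pi.single a 1)) ((sy κ).fderiv_of_bilinear h h')

theorem lag_of_const {φ : (ι → ℝ) → ι → ℂ} (h : ContDiff ℝ ∞ φ) (c : ι → ℝ)
    (hc : ∀ a y, sympl (φ y) (pd φ a y) = c a) (x : ι → ℝ) (a b : ι) :
    sympl (pd φ a x) (pd φ b x) = 0 := by
  have key : ∀ a b, sympl (φ x) (pd (pd φ b) a x) + sympl (pd φ a x) (pd φ b x) = 0 := fun a b => by
    rw [← pd_sympl (h.differentiable (by simp) x)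
      ((contDiff_pd h b).differentiable (by simp) x), funext (hc b)]
    simp [pd]
  have h1 := key a b
  have h2 := key b a
  rw [pd_comm h, sympl_anti (pd φ b x)] at h2
  linarith

/-- transposition -/
noncomputable def trp (ι : Type) [Fintype ι] [DecidableEq ι] : Matrix ι ι ℂ →L[ℝ] Matrix ι ι ℂ :=
  LinearMap.toContinuousLinearMap (transposeLinearEquiv ι ι ℝ ℂ).toLinearMap

theorem Adm.transpose {S : (Fin 5 → ℝ) → Matrix ι ι ℂ} (h : Adm S) : Adm fun x => (S x)ᵀ :=
  ⟨(trp ι).contDiff.comp h.sm, fun x => (isUnit_transpose _).mpr (h.un x),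
    fun k x => by simp only [h.per k x]⟩

theorem alt_rev {A : Type} [NormedRing A] (τ : A → ℂ) (B : Fin 5 → A) :
    alt (fun B => τ (B 4 * B 3 * B 2 * B 1 * B 0)) B = alt (fun B => τ (pr5 B)) B := by
  have h1 := alt_comp (fun B => τ (pr5 B)) (swap 0 4 * swap 1 3) B
  rw [Perm.sign_mul, Perm.sign_swap (by decide), Perm.sign_swap (by decide)] at h1
  simp only [mul_neg, neg_neg, mul_one, Units.val_one, Int.cast_one, one_mul] at h1
  exact h1

theorem conj5 {A : Type} [Monoid A] (u : Aˣ) (a b c d e : A) :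
    u.1 * e * (u⁻¹).1 * (u.1 * d * (u⁻¹).1 * (u.1 * c * (u⁻¹).1 * (u.1 * b * (u⁻¹).1 *
      (u.1 * a * (u⁻¹).1)))) = u.1 * (e * d * c * b * a) * (u⁻¹).1 := by
  simp only [mul_assoc, Units.inv_mul_cancel_left]

theorem tr5 (u : (Matrix ι ι ℂ)ˣ) (a b c d e : Matrix ι ι ℂ) :
    trace ((u.1 * a * (u⁻¹).1)ᵀ * (u.1 * b * (u⁻¹).1)ᵀ * (u.1 * c * (u⁻¹).1)ᵀ *
      (u.1 * d * (u⁻¹).1)ᵀ * (u.1 * e * (u⁻¹).1)ᵀ) = trace (e * d * c * b * a) := by
  rw [← transpose_mul, ← transpose_mul, ← transpose_mul, ← transpose_mul, trace_transpose,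
    conj5 u a b c d e, trace_units_conj]

theorem alt_tr (u : (Matrix ι ι ℂ)ˣ) (B : Fin 5 → Matrix ι ι ℂ) :
    alt (fun B => trace (pr5 B)) (fun k => (u.1 * B k * (u⁻¹).1)ᵀ) =
      alt (fun B => trace (pr5 B)) B := by
  rw [← alt_rev trace B]
  simp only [alt, pr5, Function.comp_apply, tr5]

theorem wind_transpose {S : (Fin 5 → ℝ) → Matrix ι ι ℂ} (h : Adm S) :
    wind (trL ι) (fun x => (S x)ᵀ) = wind (trL ι) S := by
  have : om (trL ι) (fun x => (S x)ᵀ) = om (trL ι) S := funext fun x => by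
    obtain ⟨u, hu⟩ := h.un x
    have key : ∀ k, mc (fun x => (S x)ᵀ) k x = (u.1 * mc S k x * (u⁻¹).1)ᵀ := fun k =>
      mc_eq ((Adm.transpose h).un x) (by
        refine Eq.trans ?_ (pd_clm (trp ι) (h.sm.differentiable (by simp) x) k).symm
        rw [← transpose_mul, ← hu, Units.inv_mul_cancel_right, hu, mul_mc (h.un x)]
        rfl)
    simp only [om, key]
    exact alt_tr u _
  rw [wind, wind, this]

theorem gaussM_eq {G A : Matrix ι ι ℂ} (hG : IsUnit (G.map star)) (h : A * G.map star = G) :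
    gaussM G = A := by
  rw [gaussM]
  nth_rw 1 [← h]
  rw [mul_assoc, Ring.mul_inverse_cancel _ hG, mul_one]

theorem isUnit_conj {G : Matrix ι ι ℂ} (hG : IsUnit G) : IsUnit (G.map star) :=
  hG.map (starRingEnd ℂ).mapMatrix

theorem isUnit_gaussM {G : Matrix ι ι ℂ} (hG : IsUnit G) : IsUnit (gaussM G) :=
  hG.mul (isUnit_conj hG).ringInverse

theorem contDiff_gaussM {E : Type} [NormedAddCommGroup E] [NormedSpace ℝ E]
    {G : E → Matrix ι ι ℂ} (h : ∀ i j, ContDiff ℝ ∞ fun q => G q i j) (hu : ∀ q, IsUnit (G q)) :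
    ContDiff ℝ ∞ fun q => gaussM (G q) :=
  (contDiff_mat.mpr h).mul (contDiff_iff_contDiffAt.mpr fun q => ContDiffAt.rinv
    (contDiff_mat.mpr fun i j => Complex.conjCLE.contDiff.comp (h i j)).contDiffAt
    (isUnit_conj (hu q)))

end Pool.Agent.P.MP_a67bd8_gt.D
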