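import Pool.Agent.P.MP_a67bd8_gt.D1

/-! The suspension torus of a periodic family of unitary matrices. -/

namespace Pool.Agent.P.MP_a67bd8_gt.D

open Set Matrix Complex Sum
open scoped ContDiff Matrix.Norms.Operator

set_option linter.unusedSectionVars false

/-- the unit complex number with given argument -/
noncomputable def ex (t : ℝ) : ℂ := exp (t * I)

theorem hasDerivAt_ex (t : ℝ) : HasDerivAt ex (ex t * I) t := by
  have h := ((hasDerivAt_id (t : ℂ)).mul_const I).cexp.comp_ofReal
  rw [one_mul] at h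
  exact h

theorem contDiff_ex : ContDiff ℝ ∞ ex :=
  (contDiff_exp (𝕜 := ℝ)).comp (ofRealCLM.contDiff.mul contDiff_const)

theorem ex_sq (t : ℝ) : (ex t).re ^ 2 + (ex t).im ^ 2 = 1 := by
  simp [ex, exp_ofReal_mul_I_re, exp_ofReal_mul_I_im]

theorem ex_ne (t : ℝ) : ex t ≠ 0 := exp_ne_zero _

theorem ex_per (t : ℝ) : ex (t + 2 * Real.pi) = ex t := by
  simp [ex, add_mul, exp_add]

theorem ex_conj (t : ℝ) : ex t * star (ex t) = 1 := by
  rw [star_def, mul_conj, normSq_apply, ← sq, ← sq, ex_sq, ofReal_one]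

theorem sy2 (t α β γ δ : ℝ) : ((α + β * I) * ex t).im * ((γ + δ * I) * ex t).re -
    ((α + β * I) * ex t).re * ((γ + δ * I) * ex t).im = β * γ - α * δ := by
  simp only [mul_im, mul_re, add_re, add_im, ofReal_re, ofReal_im, I_re, I_im]
  linear_combination (β * γ - α * δ) * ex_sq t

section
variable {ι : Type} [Fintype ι] [DecidableEq ι]

theorem pd_ex (a b : ι) (y : ι → ℝ) :
    pd (fun y => ex (y a)) b y = ((Pi.single b 1 : ι → ℝ) a : ℝ) * (ex (y a) * I) := by
  have h := ((hasDerivAt_ex (y a)).hasFDerivAt.comp y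
    (ContinuousLinearMap.proj (R := ℝ) (φ := fun _ : ι => ℝ) a).hasFDerivAt).fderiv
  refine (congrArg (fun T => T (Pi.single b 1)) h).trans ?_
  simp

theorem pd_pi {κ : Type} [Fintype κ] {φ : (ι → ℝ) → κ → ℂ} {y : ι → ℝ}
    (h : DifferentiableAt ℝ φ y) (a : ι) (k : κ) : pd φ a y k = pd (fun y => φ y k) a y :=
  (pd_clm (ContinuousLinearMap.proj (R := ℝ) (φ := fun _ : κ => ℂ) k) h a).symm

theorem cd_ex (a : ι) : ContDiff ℝ ∞ fun y : ι → ℝ => ex (y a) :=
  contDiff_ex.comp (contDiff_apply ℝ ℝ a)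

theorem per_ex (a : ι) : Per fun y : ι → ℝ => ex (y a) := fun k x => by
  by_cases h : a = k
  · simp [h, ex_per]
  · simp [h]

end

variable {κ : Type} [Fintype κ] [DecidableEq κ]

/-- first block of coordinates -/
noncomputable def px (κ : Type) [Fintype κ] : (Fin 5 ⊕ κ → ℝ) →L[ℝ] Fin 5 → ℝ :=
  ContinuousLinearMap.pi fun i => ContinuousLinearMap.proj (inl i)

theorem px_inr (m : κ) (t : ℝ) : px κ (Pi.single (inr m) t) = 0 := by
  funext i
  simp [px]

theorem px_inl (m : Fin 5) (t : ℝ) : px κ (Pi.single (inl m) t) = Pi.single m t := by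
  funext i
  simp [px, Pi.single_apply]

/-- hypotheses on the family -/
structure Dat (g : (Fin 5 → ℝ) → Matrix κ κ ℂ) : Prop where
  sm : ∀ i j, ContDiff ℝ ∞ fun x => g x i j
  per : Per g
  un : ∀ x, star (g x) * g x = 1

variable (g : (Fin 5 → ℝ) → Matrix κ κ ℂ) (R : ℝ)

/-- the rotated product torus -/
noncomputable def w (y : Fin 5 ⊕ κ → ℝ) : κ → ℂ := g (px κ y) *ᵥ fun l => -I * ex (y (inr l))

/-- the moment -/
noncomputable def mo (j : Fin 5) (y : Fin 5 ⊕ κ → ℝ) : ℝ := sympl (w g y) (pd (w g) (inl j) y)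

/-- the radii -/
noncomputable def r (j : Fin 5) (y : Fin 5 ⊕ κ → ℝ) : ℝ := √(R + mo g j y)

/-- the suspension -/
noncomputable def sus (y : Fin 5 ⊕ κ → ℝ) : Fin 5 ⊕ κ → ℂ :=
  Sum.elim (fun j => r g R j y * ex (y (inl j))) (w g y)

/-- the deformation of the frame -/
noncomputable def Gs (s : ℝ) (y : Fin 5 ⊕ κ → ℝ) : Matrix (Fin 5 ⊕ κ) (Fin 5 ⊕ κ) ℂ :=
  Matrix.of fun j a => Sum.elim
    (fun j => ((Sum.elim (fun _ => s ^ 2) (fun _ => s) a * pd (r g R j) a y : ℝ) +
      ((Pi.single a 1 : Fin 5 ⊕ κ → ℝ) (inl j) * r g R j y : ℝ) * I) * ex (y (inl j)))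
    (fun k => (Sum.elim (fun _ => s) (fun _ => 1) a : ℝ) * pd (w g) a y k) j

variable {g R}

theorem Dat.unit (h : Dat g) (x : Fin 5 → ℝ) : IsUnit (g x) :=
  (isUnit_iff_isUnit_det _).mpr (isUnit_det_of_left_inverse (h.un x))

theorem Dat.adm (h : Dat g) : Adm g := ⟨contDiff_mat.mpr h.sm, h.unit, h.per⟩

theorem Dat.cd_w (h : Dat g) : ContDiff ℝ ∞ (w g) :=
  contDiff_pi.mpr fun k => ContDiff.sum fun l _ =>
    ((h.sm k l).comp (px κ).contDiff).mul (contDiff_const.mul (cd_ex _))

theorem Dat.per_g (h : Dat g) : Per fun y => g (px κ y) := by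
  rintro (k | k) y
  · simp only [map_add, px_inl, h.per k]
  · simp only [map_add, px_inr, add_zero]

theorem Dat.per_w (h : Dat g) : Per (w g) := fun k y => by
  have h1 := h.per_g k y
  have h2 := fun l => per_ex (inr l : Fin 5 ⊕ κ) k y
  simp only [w] at h1 h2 ⊢
  simp only [h1, h2]

theorem Dat.pd_w (h : Dat g) (m : κ) (y : Fin 5 ⊕ κ → ℝ) :
    pd (w g) (inr m) y = g (px κ y) *ᵥ Pi.single m (ex (y (inr m))) := by
  funext k
  have d1 : ∀ l, DifferentiableAt ℝ (fun y => g (px κ y) k l) y := fun l =>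
    ((h.sm k l).comp (px κ).contDiff).differentiable (by simp) y
  have d2 : ∀ l, DifferentiableAt ℝ (fun y : Fin 5 ⊕ κ → ℝ => ex (y (inr l))) y := fun l =>
    (cd_ex _).differentiable (by simp) y
  have d3 : ∀ l, pd (fun y => g (px κ y) k l) (inr m) y = 0 := fun l => by
    have := (((h.sm k l).differentiable (by simp) _).hasFDerivAt.comp y (px κ).hasFDerivAt).fderiv
    refine (congrArg (fun T => T (Pi.single (inr m) 1)) this).trans ?_
    simp [px_inr]
  rw [pd_pi (h.cd_w.differentiable (by simp) y)]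
  simp only [w, mulVec, dotProduct]
  rw [pd, fderiv_fun_sum fun l _ => (d1 l).fun_mul ((d2 l).const_mul _), _root_.sum_apply]
  refine Finset.sum_congr rfl fun l _ => ?_
  refine (pd_mul (d1 l) ((d2 l).const_mul _) _).trans ?_
  rw [d3, pd_mul (differentiableAt_const _) (d2 l), pd_ex]
  by_cases e : l = m
  · simp only [pd, e, fderiv_fun_const, Pi.zero_apply, _root_.zero_apply,
      Pi.single_eq_same, ofReal_one]
    linear_combination (-g (px κ y) k m * ex (y (inr m))) * I_mul_I
  · simp [pd, e]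

theorem Dat.cd_mo (h : Dat g) (j : Fin 5) : ContDiff ℝ ∞ (mo g j) :=
  ((sy κ).contDiff.comp h.cd_w).clm_apply (contDiff_pd h.cd_w _)

theorem Dat.per_mo (h : Dat g) (j : Fin 5) : Per (mo g j) := fun k y => by
  rw [mo, h.per_w, pd_shift (h.per_w k), mo]

theorem Dat.exists_R (h : Dat g) : ∃ R, ∀ j y, 0 < R + mo g j y := by
  choose C hC using fun j => per_bdd (h.per_mo j) (h.cd_mo j).continuous
  obtain ⟨B, hB⟩ := (finite_range C).bddAbove
  refine ⟨B + 1, fun j y => ?_⟩
  linarith [hB (mem_range_self j), neg_abs_le (mo g j y), hC j y]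

variable (h : Dat g) (hR : ∀ j y, 0 < R + mo g j y)
include h hR

theorem cd_r (j : Fin 5) : ContDiff ℝ ∞ (r g R j) :=
  (contDiff_const.add (h.cd_mo j)).sqrt fun y => (hR j y).ne'

theorem r_pos (j : Fin 5) (y : Fin 5 ⊕ κ → ℝ) : 0 < r g R j y := Real.sqrt_pos.mpr (hR j y)

theorem per_r (j : Fin 5) : Per (r g R j) := fun k y => by rw [r, h.per_mo j, r]

theorem cd_sus : ContDiff ℝ ∞ (sus g R) := contDiff_pi.mpr <| by
  rintro (j | k)
  · exact (ofRealCLM.contDiff.comp (cd_r h hR j)).mul (cd_ex _)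
  · exact contDiff_pi.mp h.cd_w k

theorem per_sus : Per (sus g R) := fun k y => by
  have h2 := fun l => per_ex (inl l : Fin 5 ⊕ κ) k y
  simp only [sus, h.per_w k, per_r h hR _ k] at h2 ⊢
  simp only [h2]

theorem Gs_one (y : Fin 5 ⊕ κ → ℝ) : Gs g R 1 y = frame (sus g R) y := by
  ext j a
  have d := (cd_r h hR · |>.differentiable (by simp) y)
  rw [frame, of_apply, pd_pi ((cd_sus h hR).differentiable (by simp) y)]
  rcases j with j | k
  · refine Eq.trans ?_ (pd_mul (ofRealCLM.differentiableAt.comp y (d j))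
      ((cd_ex (inl j)).differentiable (by simp) y) a).symm
    rw [pd_ex, show pd (ofRealCLM ∘ r g R j) a y = _ from pd_clm ofRealCLM (d j) a]
    rcases a with a | a
    · simp [Gs]
      ring
    · simp [Gs]
  · refine Eq.trans ?_ (pd_pi (h.cd_w.differentiable (by simp) y) a k)
    rcases a with a | a <;> simp [Gs]

theorem sympl_Gs (s : ℝ) (y : Fin 5 ⊕ κ → ℝ) (a b : Fin 5 ⊕ κ) :
    sympl (fun j => Gs g R s y j a) (fun j => Gs g R s y j b) =
      Sum.elim (fun _ => s ^ 2) (fun _ => s) b *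
        Sum.elim (fun j => r g R j y * pd (r g R j) b y) (fun _ => 0) a -
      Sum.elim (fun _ => s ^ 2) (fun _ => s) a *
        Sum.elim (fun j => r g R j y * pd (r g R j) a y) (fun _ => 0) b +
      Sum.elim (fun _ => s) (fun _ => 1) a * Sum.elim (fun _ => s) (fun _ => 1) b *
        sympl (pd (w g) a y) (pd (w g) b y) := by
  rw [sympl, Fintype.sum_sum_type]
  congr 1
  · simp only [Gs, of_apply, elim_inl, sy2, Finset.sum_sub_distrib]
    congr 1
    · rcases a with a | a <;> simp [Pi.single_apply, eq_comm]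
      ring
    · rcases b with b | b <;> simp [Pi.single_apply, eq_comm]
      ring
  · simp only [Gs, of_apply, elim_inr, sympl, Finset.mul_sum, re_ofReal_mul, im_ofReal_mul]
    exact Finset.sum_congr rfl fun k _ => by ring

theorem liouville (a : Fin 5 ⊕ κ) (y : Fin 5 ⊕ κ → ℝ) :
    sympl (sus g R y) (pd (sus g R) a y) = Sum.elim (fun _ => -R) (fun _ => -1) a := by
  have e : pd (sus g R) a y = fun j => Gs g R 1 y j a := by
    rw [Gs_one h hR]
    rfl
  have e2 : ∀ j, (r g R j y : ℂ) * ex (y (inl j)) = (r g R j y + (0 : ℝ) * I) * ex (y (inl j)) :=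
    fun j => by simp
  rw [e, sympl, Fintype.sum_sum_type]
  simp only [Gs, sus, of_apply, elim_inl, elim_inr, e2, sy2]
  rcases a with a | a
  · have : r g R a y * r g R a y = R + mo g a y := Real.mul_self_sqrt (hR a y).le
    simp only [mo, sympl] at this
    simp [Pi.single_apply, this]
    ring
  · have := sympl_unitary (h.un (px κ y)) (fun l => -I * ex (y (inr l)))
      (Pi.single a (ex (y (inr a))))
    rw [← h.pd_w, ← w, eq_comm, sympl, Finset.sum_eq_single a, sympl, eq_comm] at this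
    rotate_left
    · intro l _ hl
      simp [hl]
    · simp
    simp only [elim_inr, ofReal_one, one_mul, this]
    simp
    linear_combination -ex_sq (y (inr a))

theorem iso_Gs (s : ℝ) (y : Fin 5 ⊕ κ → ℝ) (a b : Fin 5 ⊕ κ) :
    sympl (fun j => Gs g R s y j a) (fun j => Gs g R s y j b) = 0 := by
  have h1 := lag_of_const (cd_sus h hR) _ (liouville h hR) y a b
  have h2 := sympl_Gs h hR 1 y a b
  rw [Gs_one h hR, show sympl (fun j => frame (sus g R) y j a) (fun j => frame (sus g R) y j b) =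
    0 from h1] at h2
  rw [sympl_Gs h hR]
  rcases a with a | a <;> rcases b with b | b <;> simp only [elim_inl, elim_inr] at h2 ⊢
  · linear_combination (-s ^ 2) * h2
  · linear_combination (-s) * h2
  · linear_combination (-s) * h2
  · linear_combination -h2

theorem inj_Gs (s : ℝ) (y : Fin 5 ⊕ κ → ℝ) (v : Fin 5 ⊕ κ → ℝ)
    (hv : Gs g R s y *ᵥ (fun a => (v a : ℂ)) = 0) : v = 0 := by
  have h1 : ∀ j, v (inl j) = 0 := fun j => by
    have := congrFun hv (inl j)
    simp only [Gs, mulVec, dotProduct, of_apply, elim_inl, mul_right_comm _ (ex _),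
      ← Finset.sum_mul, Pi.zero_apply, mul_eq_zero, ex_ne, or_false] at this
    have := congrArg im this
    simpa [im_sum, Pi.single_apply, (r_pos h hR j y).ne', ← ofReal_pow] using this
  have h2 : g (px κ y) *ᵥ (fun m => ex (y (inr m)) * v (inr m)) = g (px κ y) *ᵥ 0 := by
    funext k
    have := congrFun hv (inr k)
    simpa [Gs, mulVec, dotProduct, h1, h.pd_w, Pi.single_apply, mul_assoc] using this
  have h3 := mulVec_injective_iff_isUnit.mpr (h.unit _) h2
  funext a
  rcases a with a | a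
  · exact h1 a
  · simpa [ex_ne] using congrFun h3 a

theorem unit_Gs (s : ℝ) (y : Fin 5 ⊕ κ → ℝ) : IsUnit (Gs g R s y) :=
  isUnit_of_iso (iso_Gs h hR s y) (inj_Gs h hR s y)

theorem lag_sus : IsLagTorus (desc (sus g R)) := by
  have e : (fun x => desc (sus g R) (cov x)) = sus g R := funext (desc_cov (per_sus h hR))
  refine ⟨?_, fun c c' hc => ?_, fun x => ?_, fun x u v => ?_⟩
  · rw [e]
    exact cd_sus h hR
  · have hx : ∀ (c : Fin 5 ⊕ κ → Circle) a, ex (arg (c a)) = c a := fun c a =>
      congrArg Subtype.val (Circle.exp_arg (c a))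
    have h1 : ∀ j, c (inl j) = c' (inl j) := fun j => by
      have e1 := congrFun hc (inl j)
      simp only [desc, sus, elim_inl, hx] at e1
      have e2 := congrArg norm e1
      simp only [norm_mul, Circle.norm_coe, mul_one, norm_real, Real.norm_eq_abs,
        abs_of_pos (r_pos h hR j _)] at e2
      rw [e2] at e1
      exact Subtype.ext (mul_left_cancel₀ (ofReal_ne_zero.mpr (r_pos h hR j _).ne') e1)
    have h2 : (px κ fun a => arg (c a)) = px κ fun a => arg (c' a) := by
      funext j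
      simp [px, h1]
    have h3 : w g (fun a => arg (c a)) = w g fun a => arg (c' a) := funext fun k =>
      congrFun hc (inr k)
    rw [w, w, h2] at h3
    have h4 := mulVec_injective_iff_isUnit.mpr (h.unit _) h3
    funext a
    rcases a with a | a
    · exact h1 a
    · exact Subtype.ext (by simpa [hx] using congrFun h4 a)
  · rw [e]
    refine (injective_iff_map_eq_zero _).mpr fun v hv => inj_Gs h hR 1 x v ?_
    rw [Gs_one h hR, ← fderiv_eq_frame, hv]
  · rw [e, fderiv_eq_frame, fderiv_eq_frame, ← Gs_one h hR]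
    exact sympl_real (iso_Gs h hR 1 x) u v

/-- the five torus inside -/
noncomputable def ell (κ : Type) [Fintype κ] : (Fin 5 → ℝ) →L[ℝ] Fin 5 ⊕ κ → ℝ :=
  ContinuousLinearMap.pi fun a => Sum.elim (fun i => ContinuousLinearMap.proj i) (fun _ => 0) a

omit h hR in
theorem ell_single (k : Fin 5) (t : ℝ) : ell κ (Pi.single k t) = Pi.single (inl k) t := by
  funext a
  rcases a with a | a <;> simp [ell, Pi.single_apply]

theorem per_Gs (s : ℝ) : Per (Gs g R s) := fun k y => by
  have h2 := fun l => per_ex (inl l : Fin 5 ⊕ κ) k y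
  simp only [Gs, pd_shift (h.per_w k), per_r h hR _ k, pd_shift (per_r h hR _ k)] at h2 ⊢
  simp only [h2]

theorem gauss_zero (b : Fin 5 → ℝ) : gaussM (Gs g R 0 (ell κ b)) =
    fromBlocks (diagonal fun j => -ex (b j) ^ 2) 0 0 (g b * (g b)ᵀ) := by
  refine gaussM_eq (isUnit_conj (unit_Gs h hR _ _)) ?_
  have e : Gs g R 0 (ell κ b) =
      fromBlocks (diagonal fun j => r g R j (ell κ b) * I * ex (b j)) 0 0 (g b) := by
    ext (j | j) (a | a)
    · by_cases e : j = a <;> simp [Gs, ell, e]
    · simp [Gs]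
    · simp [Gs]
    · simp [Gs, h.pd_w, ex, show px κ (ell κ b) = b from rfl, show ell κ b (inr a) = 0 from rfl]
  have e2 : (g b)ᵀ * (g b).map star = 1 := by
    rw [← transpose_one, ← h.un b, transpose_mul]
    rfl
  rw [e, fromBlocks_map, fromBlocks_multiply, Matrix.mul_assoc _ _ ((g b).map star), e2]
  simp only [Matrix.map_zero _ (star_zero ℂ), diagonal_map (star_zero ℂ), Matrix.mul_zero,
    Matrix.zero_mul, add_zero, zero_add, Matrix.mul_one, diagonal_mul_diagonal]
  congr 2
  funext j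
  have := ex_conj (b j)
  simp only [star_mul', star_def, conj_ofReal, conj_I] at this ⊢
  linear_combination (r g R j (ell κ b) * I * ex (b j)) * this

theorem wind_sus : wind (trL _) (fun b => gaussM (frame (sus g R) (ell κ b))) =
    2 * wind (trL κ) g := by
  have h1 := wind_homotopy (trL (Fin 5 ⊕ κ)) trL_comm (fun s b => gaussM (Gs g R s (ell κ b)))
    (contDiff_gaussM (fun j a => ?_) fun q => unit_Gs h hR _ _).contDiffOn
    (fun s _ b => isUnit_gaussM (unit_Gs h hR _ _))
    fun s _ k b => by simp only [map_add, ell_single, per_Gs h hR s (inl k)]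
  · have hd : Adm fun b : Fin 5 → ℝ => diagonal fun j => -ex (b j) ^ 2 :=
      ⟨contDiff_mat.mpr fun i j => by
          by_cases e : i = j
          · simpa [e] using ((cd_ex j).pow 2).neg
          · simpa [e] using contDiff_const,
        fun b => isUnit_diagonal.mpr (Pi.isUnit_iff.mpr fun j => by simp [ex_ne]),
        fun k b => by
          have h2 := fun l => per_ex l k b
          simp only at h2 ⊢
          simp only [h2]⟩
    simp only [Gs_one h hR, gauss_zero h hR] at h1
    rw [← h1, wind_blocks hd (h.adm.mul (Adm.transpose h.adm)), wind_diag hd fun _ =>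
      isDiag_diagonal _, wind_mul h.adm (Adm.transpose h.adm), wind_transpose h.adm]
    ring
  · have c : ContDiff ℝ ∞ fun q : ℝ × (Fin 5 → ℝ) => ell κ q.2 := (ell κ).contDiff.comp contDiff_snd
    rcases j with j | k
    · refine ((ofRealCLM.contDiff.comp (ContDiff.mul ?_ ((contDiff_pd (cd_r h hR j) a).comp c))).add
        ((ofRealCLM.contDiff.comp (contDiff_const.mul ((cd_r h hR j).comp c))).mul
          contDiff_const)).mul ((cd_ex (inl j)).comp c)
      rcases a with a | a
      · exact contDiff_fst.pow 2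
      · exact contDiff_fst
    · refine (ofRealCLM.contDiff.comp ?_).mul
        ((contDiff_pi.mp (contDiff_pd h.cd_w a) k).comp c)
      rcases a with a | a
      · exact contDiff_fst
      · exact contDiff_const

omit h hR in
theorem main (hE : StE) (hC : StC κ) : ∃ f : (Fin 5 ⊕ κ → Circle) → Fin 5 ⊕ κ → ℂ,
    IsLagTorus f ∧ ¬LagIsotopic (range f) (clifford (Fin 5 ⊕ κ)) := by
  obtain ⟨g, h1, h2, h3, h4⟩ := hC
  have h : Dat g := ⟨h1, h2, h3⟩
  obtain ⟨R, hR⟩ := h.exists_R
  refine ⟨_, lag_sus h hR, fun hI => ?_⟩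
  have := hE _ _ (lag_sus h hR) hI (ell κ) fun k => by
    funext a
    by_cases e : a = inl k <;> simp [cov, ell_single, e]
  rw [funext (desc_cov (per_sus h hR)), wind_sus h hR] at this
  exact h4 (by simpa using this)

end Pool.Agent.P.MP_a67bd8_gt.D
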