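import Pool.Agent.P.MP_a67bd8_gt.Mat

/-!
Lagrangian tori in `ℂ ^ ι = ℝ ^ (2 ι)` with `q j = re (z j)`, `p j = im (z j)`.
-/

namespace Pool.Agent.P.MP_a67bd8_gt

open Set
open scoped ContDiff

variable {ι : Type} [Fintype ι]

/-- the universal covering of the torus -/
noncomputable def cov (x : ι → ℝ) : ι → Circle := fun j => Circle.exp (x j)

/-- the symplectic form `∑ dp j ∧ dq j` -/
def sympl (u v : ι → ℂ) : ℝ := ∑ j, ((u j).im * (v j).re - (u j).re * (v j).im)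

/-- smooth Lagrangian embeddings of the torus -/
structure IsLagTorus (f : (ι → Circle) → ι → ℂ) : Prop where
  smooth : ContDiff ℝ ∞ fun x => f (cov x)
  inj : Function.Injective f
  imm : ∀ x, Function.Injective (fderiv ℝ (fun x => f (cov x)) x)
  lag : ∀ x u v, sympl (fderiv ℝ (fun x => f (cov x)) x u) (fderiv ℝ (fun x => f (cov x)) x v) = 0

/-- isotopy through Lagrangian embeddings -/
def LagIsotopic (L₀ L₁ : Set (ι → ℂ)) : Prop :=
  ∃ F : ℝ → (ι → Circle) → ι → ℂ,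
    ContDiffOn ℝ ∞ (fun z : ℝ × (ι → ℝ) => F z.1 (cov z.2)) (Icc 0 1 ×ˢ univ) ∧
    (∀ t ∈ Icc (0 : ℝ) 1, IsLagTorus (F t)) ∧ range (F 0) = L₀ ∧ range (F 1) = L₁

/-- the Clifford torus -/
def clifford (ι : Type) [Fintype ι] : Set (ι → ℂ) :=
  {z | ∀ j, (z j).im ^ 2 + (z j).re ^ 2 = 1 / (Fintype.card ι : ℝ)}

open scoped Matrix.Norms.Operator

variable [DecidableEq ι]

/-- the matrix of the differential -/
noncomputable def frame (φ : (ι → ℝ) → ι → ℂ) (x : ι → ℝ) : Matrix ι ι ℂ :=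
  Matrix.of fun j a => pd φ a x j

/-- the Gauss map of a frame -/
noncomputable def gaussM (G : Matrix ι ι ℂ) : Matrix ι ι ℂ := G * Ring.inverse (G.map star)

/-- statement E -/
def StE : Prop :=
  ∀ (ι : Type) [Fintype ι] [DecidableEq ι] (f : (ι → Circle) → ι → ℂ), IsLagTorus f →
    LagIsotopic (range f) (clifford ι) → ∀ ℓ : (Fin 5 → ℝ) →L[ℝ] ι → ℝ,
      (∀ k, cov (ℓ (Pi.single k (2 * Real.pi))) = 1) →
      wind (trL ι) (fun b => gaussM (frame (fun x => f (cov x)) (ℓ b))) = 0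

/-- statement C -/
def StC (κ : Type) [Fintype κ] [DecidableEq κ] : Prop :=
  ∃ g : (Fin 5 → ℝ) → Matrix κ κ ℂ, (∀ i j, ContDiff ℝ ∞ fun x => g x i j) ∧ Per g ∧
    (∀ x, star (g x) * g x = 1) ∧ wind (trL κ) g ≠ 0

end Pool.Agent.P.MP_a67bd8_gt
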