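import Pool.Agent.P.MP_a67bd8_gt.Defs

/-!
The winding number of the Gauss map vanishes on tori Lagrangian isotopic to the Clifford torus.
-/

namespace Pool.Agent.P.MP_a67bd8_gt

open Matrix Set Filter Topology
open scoped ContDiff Matrix.Norms.Operator

set_option linter.unusedSectionVars false

variable {ι : Type} [Fintype ι] [DecidableEq ι]

theorem cov_add (x y : ι → ℝ) : cov (x + y) = cov x * cov y :=
  funext fun j => Circle.exp_add (x j) (y j)

theorem isOpenQuotientMap_cov : IsOpenQuotientMap (cov (ι := ι)) :=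
  IsOpenQuotientMap.piMap fun _ => ⟨Circle.exp_surjective, Circle.exp.continuous,
    isLocalHomeomorph_circleExp.isOpenMap⟩

theorem clm_eq_sum {V : Type} [NormedAddCommGroup V] [NormedSpace ℝ V] (L : (ι → ℝ) →L[ℝ] V)
    (u : ι → ℝ) : L u = ∑ a, u a • L (Pi.single a 1) := by
  conv_lhs => rw [← Finset.univ_sum_single u, map_sum]
  refine Finset.sum_congr rfl fun a _ => ?_
  rw [← map_smul, ← Pi.single_smul, smul_eq_mul, mul_one]

theorem isUnit_of_lag (L : (ι → ℝ) →L[ℝ] ι → ℂ) (hi : Function.Injective L)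
    (hl : ∀ u v, sympl (L u) (L v) = 0) :
    IsUnit (Matrix.of fun j a => L (Pi.single a 1) j : Matrix ι ι ℂ) := by
  rw [← mulVec_injective_iff_isUnit]
  refine (injective_iff_map_eq_zero (mulVecLin _)).mpr fun z hz => ?_
  have h : ∀ j, L (fun a => (z a).re) j + Complex.I * L (fun a => (z a).im) j = 0 := fun j => by
    rw [clm_eq_sum L, clm_eq_sum L fun a => (z a).im, Finset.sum_apply, Finset.sum_apply,
      Finset.mul_sum, ← Finset.sum_add_distrib]
    refine Eq.trans (Finset.sum_congr rfl fun a _ => ?_) (congrFun hz j)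
    simp only [Pi.smul_apply, Complex.real_smul, of_apply]
    linear_combination L (Pi.single a 1) j * Complex.re_add_im (z a)
  have h1 := hl (fun a => (z a).im) fun a => (z a).re
  have h2 : L (fun a => (z a).im) = 0 := by
    have e : ∀ j, (L (fun a => (z a).im) j).im * (L (fun a => (z a).re) j).re -
        (L (fun a => (z a).im) j).re * (L (fun a => (z a).re) j).im =
          Complex.normSq (L (fun a => (z a).im) j) := fun j => by
      rw [eq_neg_of_add_eq_zero_left (h j), Complex.normSq_apply]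
      simp [add_comm]
    simp only [sympl, e] at h1
    exact funext fun j => Complex.normSq_eq_zero.mp ((Finset.sum_eq_zero_iff_of_nonneg
      fun _ _ => Complex.normSq_nonneg _).mp h1 j (Finset.mem_univ j))
  have h3 : L (fun a => (z a).re) = 0 := funext fun j => by simpa [h2] using h j
  exact funext fun a => Complex.ext (congrFun (hi (h3.trans L.map_zero.symm)) a)
    (congrFun (hi (h2.trans L.map_zero.symm)) a)

theorem IsLagTorus.unit {f : (ι → Circle) → ι → ℂ} (h : IsLagTorus f) (x : ι → ℝ) :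
    IsUnit (frame (fun x => f (cov x)) x) := isUnit_of_lag _ (h.imm x) (h.lag x)

theorem isUnit_conj {G : Matrix ι ι ℂ} (h : IsUnit G) : IsUnit (G.map star) :=
  h.map (starRingEnd ℂ).mapMatrix

theorem isUnit_gaussM {G : Matrix ι ι ℂ} (h : IsUnit G) : IsUnit (gaussM G) :=
  h.mul (isUnit_conj h).ringInverse

theorem contDiffAt_gaussM {E : Type} [NormedAddCommGroup E] [NormedSpace ℝ E]
    {G : E → Matrix ι ι ℂ} {p : E} (h : ContDiffAt ℝ ∞ G p) (hu : IsUnit (G p)) :
    ContDiffAt ℝ ∞ (fun q => gaussM (G q)) p :=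
  h.mul (ContDiffAt.rinv (contDiffAt_mat.mpr fun i j =>
    Complex.conjCLE.contDiff.contDiffAt.comp p (contDiffAt_mat.mp h i j)) (isUnit_conj hu))

theorem gaussM_mul {G A : Matrix ι ι ℂ} (h : IsUnit (G * A)) (hA : A.map star = A) :
    gaussM (G * A) = gaussM G := by
  have hu : IsUnit A := (isUnit_iff_isUnit_det _).mpr
    (isUnit_of_mul_isUnit_right (det_mul G A ▸ (isUnit_iff_isUnit_det _).mp h))
  have e : (G * A).map star = G.map star * A.map star := Matrix.map_mul (f := starRingEnd ℂ)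
  rw [gaussM, gaussM, e, hA, Ring.inverse_mul (Or.inr hu), mul_assoc, ← mul_assoc A,
    Ring.mul_inverse_cancel _ hu, one_mul]

theorem frame_congr (f : (ι → Circle) → ι → ℂ) {y y' : ι → ℝ} (h : cov y = cov y') :
    frame (fun x => f (cov x)) y = frame (fun x => f (cov x)) y' := by
  have h1 : cov (y' - y) = 1 := by
    refine mul_left_cancel (a := cov y) ?_
    rw [← cov_add, add_sub_cancel, mul_one, h]
  ext j a
  have := pd_shift (S := fun x => f (cov x)) (a := y' - y)
    (fun p => by rw [cov_add, h1, mul_one]) a y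
  rw [add_sub_cancel] at this
  exact (congrFun this j).symm

theorem local_lift {f g : (ι → Circle) → ι → ℂ} (hf : IsLagTorus f) (hg : IsLagTorus g)
    {c : (ι → ℝ) → ι → ℝ} (hc : ∀ x, g (cov (c x)) = f (cov x)) (x₀ : ι → ℝ) :
    ∃ d : (ι → ℝ) → ι → ℝ, ContDiffAt ℝ ∞ d x₀ ∧ ∀ᶠ x in 𝓝 x₀, cov (d x) = cov (c x) := by
  have hq := isOpenQuotientMap_cov (ι := ι)
  have cg : Continuous g := hq.isQuotientMap.continuous_iff.mpr hg.smooth.continuous
  have cc : Continuous fun x => cov (c x) :=
    (cg.isClosedEmbedding hg.inj).isEmbedding.continuous_iff.mpr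
      (funext hc ▸ hf.smooth.continuous :)
  obtain ⟨π, hπ⟩ := LinearMap.exists_leftInverse_of_injective
    (fderiv ℝ (fun x => g (cov x)) (c x₀)).toLinearMap (LinearMap.ker_eq_bot.mpr (hg.imm _))
  let P := LinearMap.toContinuousLinearMap π
  have h1 : ContDiffAt ℝ ∞ (fun y => P (g (cov y))) (c x₀) :=
    (P.contDiff.comp hg.smooth).contDiffAt
  have h2 : HasFDerivAt (fun y => P (g (cov y)))
      (ContinuousLinearEquiv.refl ℝ (ι → ℝ) : (ι → ℝ) →L[ℝ] ι → ℝ) (c x₀) := by
    exact (P.hasFDerivAt.comp (c x₀) (hg.smooth.differentiable (by simp) _).hasFDerivAt).congr_fderiv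
      (ContinuousLinearMap.ext fun v => LinearMap.congr_fun hπ v)
  have hn : (∞ : WithTop ℕ∞) ≠ 0 := by simp
  refine ⟨fun x => h1.localInverse h2 hn (P (f (cov x))), ?_, ?_⟩
  · have h3 := h1.to_localInverse h2 hn
    rw [hc] at h3
    exact h3.comp x₀ (P.contDiff.comp hf.smooth).contDiffAt
  · have h3 := (h1.hasStrictFDerivAt' h2 hn).eventually_left_inverse
    filter_upwards [cc.continuousAt (hq.isOpenMap.image_mem_nhds h3)] with x hx
    obtain ⟨y, hy, e⟩ := hx
    rw [← hc, ← show cov y = cov (c x) from e]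
    exact congrArg cov hy

theorem gauss_lift {f g : (ι → Circle) → ι → ℂ} (hf : IsLagTorus f) (hg : IsLagTorus g)
    {c : (ι → ℝ) → ι → ℝ} (hc : ∀ x, g (cov (c x)) = f (cov x)) (x : ι → ℝ) :
    gaussM (frame (fun x => g (cov x)) (c x)) = gaussM (frame (fun x => f (cov x)) x) := by
  obtain ⟨d, hd, he⟩ := local_lift hf hg hc x
  have e : frame (fun x => f (cov x)) x = frame (fun x => g (cov x)) (d x) *
      Matrix.of fun a b => ((fderiv ℝ d x (Pi.single b 1) a : ℝ) : ℂ) := by
    have h1 : (fun x => f (cov x)) =ᶠ[𝓝 x] (fun x => g (cov x)) ∘ d := by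
      filter_upwards [he] with y hy
      rw [← hc, ← hy]
      rfl
    ext j b
    rw [mul_apply, frame, of_apply, pd, h1.fderiv_eq, fderiv_comp x
      (hg.smooth.differentiable (by simp) _) (hd.differentiableAt (by simp)),
      ContinuousLinearMap.comp_apply, clm_eq_sum, Finset.sum_apply]
    exact Finset.sum_congr rfl fun a _ => mul_comm _ _
  rw [e, gaussM_mul (e ▸ hf.unit x), frame_congr g he.self_of_nhds]
  ext a b
  simp

theorem gauss_diag {g : (ι → Circle) → ι → ℂ} (hg : IsLagTorus g) (h : range g = clifford ι)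
    (y : ι → ℝ) : (gaussM (frame (fun x => g (cov x)) y)).IsDiag := by
  have h1 : ∀ x j, g (cov x) j * star (g (cov x) j) = ((1 / (Fintype.card ι : ℝ) : ℝ) : ℂ) :=
    fun x j => by
      rw [← (h ▸ mem_range_self (cov x) : g (cov x) ∈ clifford ι) j, Complex.star_def,
        Complex.mul_conj, Complex.normSq_apply]
      congr 1
      ring
  have h2 : ∀ j, star (g (cov y) j) ≠ 0 := fun j h0 => by
    have := h1 y j
    have hc : Fintype.card ι ≠ 0 := (Fintype.card_pos_iff.mpr ⟨j⟩).ne'
    rw [h0, mul_zero, eq_comm] at this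
    simp [hc] at this
  have e : frame (fun x => g (cov x)) y = diagonal (fun j => -(g (cov y) j / star (g (cov y) j))) *
      (frame (fun x => g (cov x)) y).map star := by
    ext j a
    have d := hg.smooth.differentiable (by simp) y
    have d1 : DifferentiableAt ℝ (fun x => g (cov x) j) y := differentiableAt_pi.mp d j
    have p1 : pd (fun x => g (cov x) j) a y = pd (fun x => g (cov x)) a y j :=
      pd_clm (ContinuousLinearMap.proj (R := ℝ) (φ := fun _ : ι => ℂ) j) d a
    have p2 : pd (fun x => star (g (cov x) j)) a y = star (pd (fun x => g (cov x) j) a y) :=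
      pd_clm (Complex.conjCLE : ℂ →L[ℝ] ℂ) d1 a
    have h3 := pd_mul d1 d1.star a
    rw [funext fun x => h1 x j, p2, p1, pd, fderiv_fun_const] at h3
    have := h2 j
    change 0 = _ at h3
    rw [diagonal_mul, map_apply, frame, of_apply]
    field_simp
    linear_combination -h3
  rw [gaussM]
  nth_rw 1 [e]
  rw [mul_assoc, Ring.mul_inverse_cancel _ (isUnit_conj (hg.unit y)), mul_one]
  exact isDiag_diagonal _

theorem contDiff_gauss {F : ℝ → (ι → Circle) → ι → ℂ}
    (hF : ContDiff ℝ ∞ fun z : ℝ × (ι → ℝ) => F z.1 (cov z.2)) (hL : ∀ t, IsLagTorus (F t)) :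
    ContDiff ℝ ∞ fun z : ℝ × (ι → ℝ) => gaussM (frame (fun x => F z.1 (cov x)) z.2) :=
  contDiff_iff_contDiffAt.mpr fun _ =>
    contDiffAt_gaussM (contDiff_mat.mpr fun j _ => contDiff_pi.mp
      ((ContDiff.fderiv (f := fun (z : ℝ × (ι → ℝ)) x => F z.1 (cov x))
        (hF.comp (contDiff_fst.fst.prodMk contDiff_snd)) contDiff_snd le_rfl).clm_apply
          contDiff_const) j).contDiffAt ((hL _).unit _)

theorem wind_isotopy {f : (ι → Circle) → ι → ℂ} (hf : IsLagTorus f)
    {F : ℝ → (ι → Circle) → ι → ℂ} (hF : ContDiff ℝ ∞ fun z : ℝ × (ι → ℝ) => F z.1 (cov z.2))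
    (hL : ∀ t, IsLagTorus (F t)) (h0 : range (F 0) = range f) (h1 : range (F 1) = clifford ι)
    (ℓ : (Fin 5 → ℝ) →L[ℝ] ι → ℝ) (hℓ : ∀ k, cov (ℓ (Pi.single k (2 * Real.pi))) = 1) :
    wind (trL ι) (fun b => gaussM (frame (fun x => f (cov x)) (ℓ b))) = 0 := by
  have hc : ∀ x, ∃ y, F 0 (cov y) = f (cov x) := fun x => by
    obtain ⟨z, hz⟩ : f (cov x) ∈ range (F 0) := h0 ▸ mem_range_self _
    obtain ⟨y, rfl⟩ := isOpenQuotientMap_cov.surjective z
    exact ⟨y, hz⟩
  choose c hc using hc
  have hH : ContDiff ℝ ∞ fun z : ℝ × (Fin 5 → ℝ) =>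
      gaussM (frame (fun x => F z.1 (cov x)) (c (ℓ z.2))) :=
    contDiff_iff_contDiffAt.mpr fun z => by
      obtain ⟨d, hd, he⟩ := local_lift hf (hL 0) hc (ℓ z.2)
      have hl : ContDiffAt ℝ ∞ (fun z : ℝ × (Fin 5 → ℝ) => ℓ z.2) z :=
        (ℓ.contDiff.comp contDiff_snd).contDiffAt
      refine ((contDiff_gauss hF hL).contDiffAt.comp z
        (contDiffAt_fst.prodMk (hd.comp z hl))).congr_of_eventuallyEq ?_
      filter_upwards [hl.continuousAt he] with w hw
      exact congrArg gaussM (frame_congr _ (Eq.symm hw))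
  have hu : ∀ t b, IsUnit (gaussM (frame (fun x => F t (cov x)) (c (ℓ b)))) := fun t x =>
    isUnit_gaussM ((hL _).unit _)
  have hp : ∀ t, Per fun b => gaussM (frame (fun x => F t (cov x)) (c (ℓ b))) := fun t k x =>
    congrArg gaussM (frame_congr _ ((hL 0).inj (by rw [hc, hc, map_add, cov_add, hℓ, mul_one])))
  have key := wind_homotopy (trL ι) trL_comm
    (fun t b => gaussM (frame (fun x => F t (cov x)) (c (ℓ b)))) hH.contDiffOn
    (fun t _ => hu t) fun t _ => hp t
  have h2 := wind_diag (S := fun b => gaussM (frame (fun x => F 1 (cov x)) (c (ℓ b))))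
    ⟨hH.comp (f := fun b => (1, b)) (contDiff_const.prodMk contDiff_id), hu 1, hp 1⟩ fun x =>
      gauss_diag (hL _) h1 _
  rw [← funext fun b => gauss_lift hf (hL 0) hc (ℓ b)]
  exact key.trans h2

theorem stE : StE := by
  rintro ι _ _ f hf ⟨F, hF, hL, h0, h1⟩ ℓ hℓ
  have hm : ∀ t, Real.smoothTransition t ∈ Icc (0 : ℝ) 1 := fun t =>
    ⟨Real.smoothTransition.nonneg t, Real.smoothTransition.le_one t⟩
  exact wind_isotopy hf (F := fun t => F (Real.smoothTransition t))
    (hF.comp_contDiff (f := fun z : ℝ × (ι → ℝ) => (Real.smoothTransition z.1, z.2))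
      ((Real.smoothTransition.contDiff.comp contDiff_fst).prodMk contDiff_snd)
      fun _ => ⟨hm _, trivial⟩) (fun t => hL _ (hm t))
    (by rw [Real.smoothTransition.zero, h0]) (by rw [Real.smoothTransition.one, h1]) ℓ hℓ

end Pool.Agent.P.MP_a67bd8_gt
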