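import Mathlib

/-!
The closed five form `tr (S⁻¹ dS)⁵` and the homotopy invariance of its integral over the five
dimensional torus.
-/

namespace Pool.Agent.P.MP_a67bd8_gt

open Equiv MeasureTheory Set
open scoped ContDiff


set_option linter.unusedSectionVars false

section Alt

variable {X : Type} {n : ℕ}

/-- alternating sum over all orderings of the arguments -/
noncomputable def alt (F : (Fin n → X) → ℂ) (b : Fin n → X) : ℂ :=
  ∑ σ : Perm (Fin n), ((Perm.sign σ : ℤ) : ℂ) * F (b ∘ σ)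

theorem alt_comp (F : (Fin n → X) → ℂ) (π : Perm (Fin n)) (b : Fin n → X) :
    alt (fun c => F (c ∘ π)) b = ((Perm.sign π : ℤ) : ℂ) * alt F b := by
  unfold alt
  rw [Finset.mul_sum, ← Equiv.sum_comp (Equiv.mulRight π)
    fun σ => ((Perm.sign π : ℤ) : ℂ) * (((Perm.sign σ : ℤ) : ℂ) * F (b ∘ σ))]
  refine Finset.sum_congr rfl fun σ _ => ?_
  have h : ((Perm.sign π : ℤ) : ℂ) * ((Perm.sign π : ℤ) : ℂ) = 1 := by
    rw [← Int.cast_mul, ← Units.val_mul, Int.units_mul_self]; simp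
  simp only [Equiv.coe_mulRight, Perm.sign_mul, Units.val_mul, Int.cast_mul, Perm.coe_mul,
    Function.comp_assoc]
  linear_combination (-((Perm.sign σ : ℤ) : ℂ) * F (b ∘ σ ∘ π)) * h

theorem alt_zero {F : (Fin n → X) → ℂ} {π : Perm (Fin n)} (hπ : Perm.sign π = -1) {b : Fin n → X}
    (h : ∀ σ : Perm (Fin n), F ((b ∘ σ) ∘ π) = F (b ∘ σ)) : alt F b = 0 := by
  have h1 := alt_comp F π b
  have h2 : alt (fun c => F (c ∘ π)) b = alt F b := Finset.sum_congr rfl fun σ _ => congrArg _ (h σ)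
  rw [h2, hπ] at h1
  simp only [Units.val_neg, Units.val_one, Int.cast_neg, Int.cast_one] at h1
  linear_combination h1 / 2

theorem alt_add (F G : (Fin n → X) → ℂ) (b : Fin n → X) :
    alt (fun c => F c + G c) b = alt F b + alt G b := by
  simp only [alt, mul_add, Finset.sum_add_distrib]

theorem alt_sub (F G : (Fin n → X) → ℂ) (b : Fin n → X) :
    alt (fun c => F c - G c) b = alt F b - alt G b := by
  simp only [alt, mul_sub, Finset.sum_sub_distrib]

end Alt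

section PD

variable {κ : Type} [Fintype κ] [DecidableEq κ] {V : Type} [NormedAddCommGroup V]
  [NormedSpace ℝ V]

/-- derivative in a coordinate direction -/
noncomputable def pd (S : (κ → ℝ) → V) (μ : κ) (p : κ → ℝ) : V := fderiv ℝ S p (Pi.single μ 1)

theorem contDiff_pd {S : (κ → ℝ) → V} (h : ContDiff ℝ ∞ S) (μ : κ) : ContDiff ℝ ∞ (pd S μ) :=
  (h.fderiv_right (m := ∞) le_rfl).clm_apply contDiff_const

theorem pd_comm {S : (κ → ℝ) → V} (h : ContDiff ℝ ∞ S) (μ ν : κ) (p : κ → ℝ) :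
    pd (pd S ν) μ p = pd (pd S μ) ν p := by
  have h1 : DifferentiableAt ℝ (fderiv ℝ S) p :=
    (h.fderiv_right (m := ∞) le_rfl).differentiable (by simp) p
  have key : ∀ a b : κ, pd (pd S a) b p =
      fderiv ℝ (fderiv ℝ S) p (Pi.single b 1) (Pi.single a 1) := fun a b => by
    unfold pd
    rw [fderiv_clm_apply h1 (differentiableAt_const _)]
    simp
  rw [key, key]
  exact (h.contDiffAt.isSymmSndFDerivAt (by
    rw [minSmoothness_of_isRCLikeNormedField]; exact WithTop.coe_le_coe.mpr le_top)).eq _ _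

theorem pd_clm {W : Type} [NormedAddCommGroup W] [NormedSpace ℝ W] (L : V →L[ℝ] W)
    {S : (κ → ℝ) → V} {p : κ → ℝ} (h : DifferentiableAt ℝ S p) (μ : κ) :
    pd (fun q => L (S q)) μ p = L (pd S μ p) := by
  exact congrArg (fun T => T (Pi.single μ 1)) (L.hasFDerivAt.comp p h.hasFDerivAt).fderiv

theorem pd_shift {S : (κ → ℝ) → V} {a : κ → ℝ} (h : ∀ p, S (p + a) = S p) (μ : κ) (p : κ → ℝ) :
    pd S μ (p + a) = pd S μ p := by
  unfold pd
  rw [← fderiv_comp_add_right, funext h]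

end PD

section MC

variable {κ : Type} [Fintype κ] [DecidableEq κ] {A : Type} [NormedRing A] [NormedAlgebra ℝ A]

theorem pd_mul {f g : (κ → ℝ) → A} {p : κ → ℝ} (hf : DifferentiableAt ℝ f p)
    (hg : DifferentiableAt ℝ g p) (μ : κ) :
    pd (fun q => f q * g q) μ p = pd f μ p * g p + f p * pd g μ p := by
  unfold pd
  rw [show (fun q => f q * g q) = f * g from rfl, (hf.hasFDerivAt.mul' hg.hasFDerivAt).fderiv]
  simp [add_comm]

/-- the coefficients of `S⁻¹ dS` -/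
noncomputable def mc (S : (κ → ℝ) → A) (μ : κ) (p : κ → ℝ) : A := Ring.inverse (S p) * pd S μ p

theorem mc_eq {S : (κ → ℝ) → A} {μ : κ} {p : κ → ℝ} (hu : IsUnit (S p)) {B : A}
    (h : S p * B = pd S μ p) : mc S μ p = B := by
  rw [mc, ← h, ← mul_assoc, Ring.inverse_mul_cancel _ hu, one_mul]

theorem mul_mc {S : (κ → ℝ) → A} {p : κ → ℝ} (hu : IsUnit (S p)) (μ : κ) :
    S p * mc S μ p = pd S μ p := by
  rw [mc, ← mul_assoc, Ring.mul_inverse_cancel _ hu, one_mul]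

variable [CompleteSpace A]

theorem ContDiffAt.rinv {E : Type} [NormedAddCommGroup E] [NormedSpace ℝ E] {S : E → A} {p : E}
    (h : ContDiffAt ℝ ∞ S p) (hu : IsUnit (S p)) :
    ContDiffAt ℝ ∞ (fun q => Ring.inverse (S q)) p := by
  have := contDiffAt_ringInverse ℝ (n := ∞) hu.unit
  exact ContDiffAt.comp p this h

theorem contDiff_mc {S : (κ → ℝ) → A} (h : ContDiff ℝ ∞ S) (hu : ∀ p, IsUnit (S p)) (μ : κ) :
    ContDiff ℝ ∞ (mc S μ) :=
  (contDiff_iff_contDiffAt.mpr fun p => ContDiffAt.rinv h.contDiffAt (hu p)).mul (contDiff_pd h μ)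

theorem pd_mc {S : (κ → ℝ) → A} (h : ContDiff ℝ ∞ S) (hu : ∀ p, IsUnit (S p)) (μ ν : κ)
    (p : κ → ℝ) :
    pd (mc S ν) μ p = Ring.inverse (S p) * pd (pd S ν) μ p - mc S μ p * mc S ν p := by
  have h1 := pd_mul (h.differentiable (by simp) p)
    ((contDiff_mc h hu ν).differentiable (by simp) p) μ
  rw [funext fun q => mul_mc (hu q) ν] at h1
  rw [h1, mul_add, ← mul_assoc, ← mul_assoc, Ring.inverse_mul_cancel _ (hu p), one_mul]
  simp [mc]

end MC

section HI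

variable {A : Type} [NormedRing A] [NormedAlgebra ℝ A]

/-- the product of five elements -/
def pr5 (B : Fin 5 → A) : A := B 0 * B 1 * B 2 * B 3 * B 4

/-- the coefficient of the five form -/
noncomputable def om (τ : A →L[ℝ] ℂ) (S : (Fin 5 → ℝ) → A) (x : Fin 5 → ℝ) : ℂ :=
  alt (fun B => τ (pr5 B)) fun k => mc S k x

/-- the integral over the torus -/
noncomputable def wind (τ : A →L[ℝ] ℂ) (S : (Fin 5 → ℝ) → A) : ℂ :=
  ∫ x in Icc (0 : Fin 5 → ℝ) fun _ => 2 * Real.pi, om τ S x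

/-- the trace of a product of six factors -/
noncomputable def w6 (τ : A →L[ℝ] ℂ) (x0 x1 x2 x3 x4 x5 : A) : ℂ :=
  τ (x0 * (x1 * (x2 * (x3 * (x4 * x5)))))

/-- the trace of a product of five factors -/
noncomputable def w5 (τ : A →L[ℝ] ℂ) (x0 x1 x2 x3 x4 : A) : ℂ := τ (x0 * (x1 * (x2 * (x3 * x4))))

theorem closed_alg (τ : A →L[ℝ] ℂ) (hτ : ∀ a b, τ (a * b) = τ (b * a)) (a : Fin 6 → A)
    (c d : Fin 6 → Fin 6 → A) (hc : ∀ i j, c i j = c j i) (hd : ∀ i j, d i j = c i j - a i * a j) :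
    alt (fun b : Fin 6 → Fin 6 => τ
      ((((d (b 0) (b 1) * a (b 2) + a (b 1) * d (b 0) (b 2)) * a (b 3) +
        a (b 1) * a (b 2) * d (b 0) (b 3)) * a (b 4) +
        a (b 1) * a (b 2) * a (b 3) * d (b 0) (b 4)) * a (b 5) +
        a (b 1) * a (b 2) * a (b 3) * a (b 4) * d (b 0) (b 5))) id = 0 := by
  let W : (Fin 6 → Fin 6) → ℂ := fun b =>
    w6 τ (a (b 0)) (a (b 1)) (a (b 2)) (a (b 3)) (a (b 4)) (a (b 5))
  have hW : alt W id = 0 := alt_zero (π := finRotate 6) (by rw [sign_finRotate]; rfl) fun σ => by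
    change w6 τ (a (σ 1)) (a (σ 2)) (a (σ 3)) (a (σ 4)) (a (σ 5)) (a (σ 0)) =
      w6 τ (a (σ 0)) (a (σ 1)) (a (σ 2)) (a (σ 3)) (a (σ 4)) (a (σ 5))
    rw [w6, w6, hτ (a (σ 0))]
    simp only [mul_assoc]
  have hM : ∀ π : Perm (Fin 6), alt (fun b => W (b ∘ π)) id = 0 := fun π => by
    rw [alt_comp, hW, mul_zero]
  let C1 : (Fin 6 → Fin 6) → ℂ := fun b =>
    w5 τ (c (b 0) (b 1)) (a (b 2)) (a (b 3)) (a (b 4)) (a (b 5))
  let C2 : (Fin 6 → Fin 6) → ℂ := fun b =>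
    w5 τ (a (b 1)) (c (b 0) (b 2)) (a (b 3)) (a (b 4)) (a (b 5))
  let C3 : (Fin 6 → Fin 6) → ℂ := fun b =>
    w5 τ (a (b 1)) (a (b 2)) (c (b 0) (b 3)) (a (b 4)) (a (b 5))
  let C4 : (Fin 6 → Fin 6) → ℂ := fun b =>
    w5 τ (a (b 1)) (a (b 2)) (a (b 3)) (c (b 0) (b 4)) (a (b 5))
  let C5 : (Fin 6 → Fin 6) → ℂ := fun b =>
    w5 τ (a (b 1)) (a (b 2)) (a (b 3)) (a (b 4)) (c (b 0) (b 5))
  have c1 : alt C1 id = 0 := alt_zero (π := swap 0 1) (Perm.sign_swap (by decide)) fun σ =>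
    congrArg (fun x => w5 τ x (a (σ 2)) (a (σ 3)) (a (σ 4)) (a (σ 5))) (hc (σ 1) (σ 0))
  have c2 : alt C2 id = 0 := alt_zero (π := swap 0 2) (Perm.sign_swap (by decide)) fun σ =>
    congrArg (fun x => w5 τ (a (σ 1)) x (a (σ 3)) (a (σ 4)) (a (σ 5))) (hc (σ 2) (σ 0))
  have c3 : alt C3 id = 0 := alt_zero (π := swap 0 3) (Perm.sign_swap (by decide)) fun σ =>
    congrArg (fun x => w5 τ (a (σ 1)) (a (σ 2)) x (a (σ 4)) (a (σ 5))) (hc (σ 3) (σ 0))
  have c4 : alt C4 id = 0 := alt_zero (π := swap 0 4) (Perm.sign_swap (by decide)) fun σ =>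
    congrArg (fun x => w5 τ (a (σ 1)) (a (σ 2)) (a (σ 3)) x (a (σ 5))) (hc (σ 4) (σ 0))
  have c5 : alt C5 id = 0 := alt_zero (π := swap 0 5) (Perm.sign_swap (by decide)) fun σ =>
    congrArg (fun x => w5 τ (a (σ 1)) (a (σ 2)) (a (σ 3)) (a (σ 4)) x) (hc (σ 5) (σ 0))
  have key : ∀ b : Fin 6 → Fin 6, τ
      ((((d (b 0) (b 1) * a (b 2) + a (b 1) * d (b 0) (b 2)) * a (b 3) +
        a (b 1) * a (b 2) * d (b 0) (b 3)) * a (b 4) +
        a (b 1) * a (b 2) * a (b 3) * d (b 0) (b 4)) * a (b 5) +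
        a (b 1) * a (b 2) * a (b 3) * a (b 4) * d (b 0) (b 5)) =
      C1 b + C2 b + C3 b + C4 b + C5 b - W b - W (b ∘ (swap 0 1 : Perm (Fin 6))) -
        W (b ∘ (swap 0 1 * swap 1 2 : Perm (Fin 6))) -
        W (b ∘ (swap 0 1 * swap 1 2 * swap 2 3 : Perm (Fin 6))) -
        W (b ∘ (swap 0 1 * swap 1 2 * swap 2 3 * swap 3 4 : Perm (Fin 6))) := fun b => by
    have e2 : W (b ∘ (swap 0 1 : Perm (Fin 6))) =
      w6 τ (a (b 1)) (a (b 0)) (a (b 2)) (a (b 3)) (a (b 4)) (a (b 5)) := rfl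
    have e3 : W (b ∘ (swap 0 1 * swap 1 2 : Perm (Fin 6))) =
      w6 τ (a (b 1)) (a (b 2)) (a (b 0)) (a (b 3)) (a (b 4)) (a (b 5)) := rfl
    have e4 : W (b ∘ (swap 0 1 * swap 1 2 * swap 2 3 : Perm (Fin 6))) =
      w6 τ (a (b 1)) (a (b 2)) (a (b 3)) (a (b 0)) (a (b 4)) (a (b 5)) := rfl
    have e5 : W (b ∘ (swap 0 1 * swap 1 2 * swap 2 3 * swap 3 4 : Perm (Fin 6))) =
      w6 τ (a (b 1)) (a (b 2)) (a (b 3)) (a (b 4)) (a (b 0)) (a (b 5)) := rfl
    rw [e2, e3, e4, e5]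
    simp only [C1, C2, C3, C4, C5, W, w5, w6, hd, add_mul, sub_mul, mul_sub, mul_assoc, map_add,
      map_sub]
    ring
  rw [funext key, alt_sub, alt_sub, alt_sub, alt_sub, alt_sub, alt_add, alt_add, alt_add, alt_add,
    hM, hM, hM, hM, c1, c2, c3, c4, c5, hW]
  simp

variable [CompleteSpace A]

/-- the components of the five form in dimension six -/
noncomputable def fi (τ : A →L[ℝ] ℂ) (H : (Fin 6 → ℝ) → A) (i : Fin 6) (p : Fin 6 → ℝ) : ℂ :=
  ∑ σ : Perm (Fin 5), ((Perm.sign (Perm.decomposeFin.symm (i, σ)) : ℤ) : ℂ) *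
    τ (pr5 fun k => mc H (Perm.decomposeFin.symm (i, σ) k.succ) p)

theorem contDiff_pr5 {H : (Fin 6 → ℝ) → A} (h : ContDiff ℝ ∞ H) (hu : ∀ p, IsUnit (H p))
    (v : Fin 5 → Fin 6) : ContDiff ℝ ∞ fun p => pr5 fun k => mc H (v k) p :=
  have m := contDiff_mc h hu
  ((((m _).mul (m _)).mul (m _)).mul (m _)).mul (m _)

theorem contDiff_fi (τ : A →L[ℝ] ℂ) {H : (Fin 6 → ℝ) → A} (h : ContDiff ℝ ∞ H)
    (hu : ∀ p, IsUnit (H p)) (i : Fin 6) : ContDiff ℝ ∞ (fi τ H i) :=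
  ContDiff.sum fun _ _ => contDiff_const.mul (τ.contDiff.comp (contDiff_pr5 h hu _))

theorem div_fi (τ : A →L[ℝ] ℂ) (hτ : ∀ a b, τ (a * b) = τ (b * a)) {H : (Fin 6 → ℝ) → A}
    (h : ContDiff ℝ ∞ H) (hu : ∀ p, IsUnit (H p)) (p : Fin 6 → ℝ) :
    ∑ i, pd (fi τ H i) i p = 0 := by
  have m : ∀ i, DifferentiableAt ℝ (mc H i) p := fun i =>
    (contDiff_mc h hu i).differentiable (by simp) p
  rw [← closed_alg τ hτ (fun i => mc H i p) (fun i j => Ring.inverse (H p) * pd (pd H j) i p)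
    (fun i j => pd (mc H j) i p) (fun i j => by rw [pd_comm h]) (fun i j => pd_mc h hu i j p),
    alt, ← Perm.decomposeFin.symm.sum_comp, Fintype.sum_prod_type]
  refine Finset.sum_congr rfl fun i _ => ?_
  have hd : ∀ σ : Perm (Fin 5), DifferentiableAt ℝ
      (fun p => pr5 fun k => mc H (Perm.decomposeFin.symm (i, σ) k.succ) p) p := fun σ =>
    (contDiff_pr5 h hu _).differentiable (by simp) p
  have hd' : ∀ σ : Perm (Fin 5), DifferentiableAt ℝ
      (fun p => τ (pr5 fun k => mc H (Perm.decomposeFin.symm (i, σ) k.succ) p)) p := fun σ =>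
    τ.differentiableAt.comp p (hd σ)
  unfold fi
  rw [pd, fderiv_fun_sum fun σ _ => ((differentiableAt_const _).fun_mul (hd' σ)),
    sum_apply]
  refine Finset.sum_congr rfl fun σ _ => ?_
  rw [fderiv_const_mul (hd' σ), smul_apply, smul_eq_mul]
  congr 1
  refine (pd_clm τ (hd σ) i).trans ?_
  congr 1
  unfold pr5
  rw [pd_mul ((((m _).fun_mul (m _)).fun_mul (m _)).fun_mul (m _)) (m _),
    pd_mul (((m _).fun_mul (m _)).fun_mul (m _)) (m _), pd_mul ((m _).fun_mul (m _)) (m _),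
    pd_mul (m _) (m _)]
  simp only [Function.comp_apply, id, Perm.decomposeFin_symm_apply_zero]
  rfl

theorem fi_zero (τ : A →L[ℝ] ℂ) {H : (Fin 6 → ℝ) → A} (h : ContDiff ℝ ∞ H) (t : ℝ)
    (x : Fin 5 → ℝ) : fi τ H 0 (Fin.cons t x) = om τ (fun y => H (Fin.cons t y)) x := by
  have key : ∀ k : Fin 5, mc (fun y => H (Fin.cons t y)) k x = mc H k.succ (Fin.cons t x) := by
    intro k
    unfold mc pd
    congr 1
    have h1 : HasFDerivAt (fun y : Fin 5 → ℝ => (Fin.cons t y : Fin 6 → ℝ))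
        (ContinuousLinearMap.pi fun i : Fin 6 => Fin.cases 0
          (fun j => ContinuousLinearMap.proj (R := ℝ) (φ := fun _ : Fin 5 => ℝ) j) i) x :=
      hasFDerivAt_pi.mpr fun i => by
        refine Fin.cases ?_ (fun j => ?_) i
        · exact hasFDerivAt_const t x
        · exact (ContinuousLinearMap.proj (R := ℝ) (φ := fun _ : Fin 5 => ℝ) j).hasFDerivAt
    have h2 := ((h.differentiable (by simp) (Fin.cons t x)).hasFDerivAt.comp x h1).fderiv
    rw [show (fun y => H (Fin.cons t y)) = H ∘ fun y : Fin 5 → ℝ => (Fin.cons t y : Fin 6 → ℝ)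
      from rfl, h2, ContinuousLinearMap.comp_apply]
    congr 1
    funext i
    refine Fin.cases ?_ (fun j => ?_) i
    · simp
    · simp [Pi.single_apply]
  unfold fi om alt
  refine Finset.sum_congr rfl fun σ _ => ?_
  simp only [Perm.decomposeFin.symm_sign, Perm.decomposeFin_symm_apply_succ, swap_self,
    Equiv.refl_apply, if_true, one_mul, key]
  rfl

theorem hi6 (τ : A →L[ℝ] ℂ) (hτ : ∀ a b, τ (a * b) = τ (b * a)) {H : (Fin 6 → ℝ) → A}
    (h : ContDiff ℝ ∞ H) (hu : ∀ p, IsUnit (H p))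
    (hp : ∀ (k : Fin 5) p, H (p + Pi.single k.succ (2 * Real.pi)) = H p) :
    wind τ (fun y => H (Fin.cons 0 y)) = wind τ fun y => H (Fin.cons 1 y) := by
  have hd := integral_divergence_of_hasFDerivAt_off_countable' (0 : Fin 6 → ℝ)
    (Fin.cons 1 fun _ => 2 * Real.pi) (fun i => by
      refine Fin.cases ?_ (fun j => ?_) i
      · simp
      · simp [Real.pi_pos.le])
    (fi τ H) (fun i p => fderiv ℝ (fi τ H i) p) ∅ countable_empty
    (fun i => (contDiff_fi τ h hu i).continuous.continuousOn)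
    (fun p _ i => ((contDiff_fi τ h hu i).differentiable (by simp) p).hasFDerivAt) (by
      have : (fun p => ∑ i, fderiv ℝ (fi τ H i) p (Pi.single i 1)) = fun _ => 0 :=
        funext fun p => div_fi τ hτ h hu p
      rw [this]
      exact integrableOn_zero)
  have h0 : (fun p => ∑ i, fderiv ℝ (fi τ H i) p (Pi.single i 1)) = fun _ => 0 :=
    funext fun p => div_fi τ hτ h hu p
  rw [h0, integral_zero, Fin.sum_univ_succ, Finset.sum_eq_zero, add_zero, eq_comm,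
    sub_eq_zero] at hd
  · simp only [Fin.insertNth_zero', Fin.cons_zero, Pi.zero_apply, fi_zero τ h] at hd
    exact hd.symm
  · intro k _
    rw [sub_eq_zero]
    congr 1
    funext x
    have e : (Fin.insertNth k.succ ((Fin.cons 1 fun _ => 2 * Real.pi : Fin 6 → ℝ) k.succ) x :
        Fin 6 → ℝ) = Fin.insertNth k.succ ((0 : Fin 6 → ℝ) k.succ) x +
          Pi.single k.succ (2 * Real.pi) := by
      funext i
      refine Fin.succAboveCases k.succ ?_ (fun j => ?_) i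
      · simp
      · simp
    rw [e]
    simp only [fi, mc, hp, pd_shift (hp k)]

/-- periodicity in every coordinate -/
def Per {κ V : Type} [DecidableEq κ] (S : (κ → ℝ) → V) : Prop :=
  ∀ (k : κ) (x : κ → ℝ), S (x + Pi.single k (2 * Real.pi)) = S x

/-- homotopy invariance -/
theorem wind_homotopy (τ : A →L[ℝ] ℂ) (hτ : ∀ a b, τ (a * b) = τ (b * a))
    (H : ℝ → (Fin 5 → ℝ) → A)
    (h : ContDiffOn ℝ ∞ (fun z : ℝ × (Fin 5 → ℝ) => H z.1 z.2) (Icc 0 1 ×ˢ univ))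
    (hu : ∀ t ∈ Icc (0 : ℝ) 1, ∀ x, IsUnit (H t x)) (hp : ∀ t ∈ Icc (0 : ℝ) 1, Per (H t)) :
    wind τ (H 0) = wind τ (H 1) := by
  have hm : ∀ t, Real.smoothTransition t ∈ Icc (0 : ℝ) 1 := fun t =>
    ⟨Real.smoothTransition.nonneg t, Real.smoothTransition.le_one t⟩
  have := hi6 τ hτ (H := fun p => H (Real.smoothTransition (p 0)) (Fin.tail p))
    (h.comp_contDiff (f := fun p : Fin 6 → ℝ => (Real.smoothTransition (p 0), Fin.tail p))
      ((Real.smoothTransition.contDiff.comp (contDiff_apply ℝ ℝ 0)).prodMk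
        (contDiff_pi.mpr fun j => contDiff_apply ℝ ℝ j.succ)) fun p => ⟨hm _, trivial⟩)
    (fun p => hu _ (hm _) _) fun k p => by
      have e : Fin.tail (p + Pi.single k.succ (2 * Real.pi) : Fin 6 → ℝ) =
          Fin.tail p + Pi.single k (2 * Real.pi) := by
        funext j
        simp [Fin.tail, Pi.single_apply]
      simp only [e, Pi.add_apply, Pi.single_eq_of_ne (Fin.succ_ne_zero k).symm, add_zero]
      exact hp _ (hm _) k _
  simpa using this

end HI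

end Pool.Agent.P.MP_a67bd8_gt
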