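import Pool.Agent.P.MP_a67bd8_gt.Form

/-!
The degree five winding number of matrix valued maps on the torus: block sums and products.
-/

namespace Pool.Agent.P.MP_a67bd8_gt

open Equiv MeasureTheory Set Matrix
open scoped ContDiff Matrix.Norms.Operator

set_option linter.unusedSectionVars false

section General

variable {A : Type} [NormedRing A] [NormedAlgebra ℝ A] [CompleteSpace A]

/-- smooth periodic maps with invertible values -/
structure Adm (S : (Fin 5 → ℝ) → A) : Prop where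
  sm : ContDiff ℝ ∞ S
  un : ∀ x, IsUnit (S x)
  per : Per S

theorem Adm.mul {S T : (Fin 5 → ℝ) → A} (h : Adm S) (h' : Adm T) : Adm fun x => S x * T x :=
  ⟨h.sm.mul h'.sm, fun x => (h.un x).mul (h'.un x), fun k x => by simp only [h.per k x, h'.per k x]⟩

theorem adm_const {a : A} (ha : IsUnit a) : Adm fun _ => a :=
  ⟨contDiff_const, fun _ => ha, fun _ _ => rfl⟩

theorem Adm.cont (τ : A →L[ℝ] ℂ) {S : (Fin 5 → ℝ) → A} (h : Adm S) : Continuous (om τ S) := by
  have m := fun k => (contDiff_mc h.sm h.un k).continuous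
  unfold om alt
  refine continuous_finsetSum _ fun σ _ => continuous_const.mul (τ.continuous.comp ?_)
  exact ((((m _).mul (m _)).mul (m _)).mul (m _)).mul (m _)

theorem om_comm (τ : A →L[ℝ] ℂ) {S : (Fin 5 → ℝ) → A} {x : Fin 5 → ℝ}
    (h : ∀ k l, Commute (mc S k x) (mc S l x)) : om τ S x = 0 :=
  alt_zero (π := swap 0 1) (Perm.sign_swap (by decide)) fun σ =>
    congrArg (fun z => τ (z * mc S (σ 2) x * mc S (σ 3) x * mc S (σ 4) x)) (h (σ 1) (σ 0)).eq

theorem wind_const (τ : A →L[ℝ] ℂ) (a : A) : wind τ (fun _ => a) = 0 := by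
  have : om τ (fun _ => a) = fun _ => 0 :=
    funext fun x => om_comm τ fun k l => by simp [mc, pd]
  simp [wind, this]

end General

variable {ι κ : Type} [Fintype ι] [DecidableEq ι] [Fintype κ] [DecidableEq κ]

instance completeSpace_mat : CompleteSpace (Matrix ι ι ℂ) := FiniteDimensional.complete ℝ _

/-- the trace -/
noncomputable def trL (ι : Type) [Fintype ι] [DecidableEq ι] : Matrix ι ι ℂ →L[ℝ] ℂ :=
  LinearMap.toContinuousLinearMap (Matrix.traceLinearMap ι ℝ ℂ)

theorem trL_apply (M : Matrix ι ι ℂ) : trL ι M = M.trace := rfl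

theorem trL_comm (a b : Matrix ι ι ℂ) : trL ι (a * b) = trL ι (b * a) := trace_mul_comm a b

/-- a matrix as the family of its entries -/
noncomputable def entL (ι : Type) [Fintype ι] [DecidableEq ι] : Matrix ι ι ℂ ≃L[ℝ] ι → ι → ℂ :=
  (Matrix.ofLinearEquiv ℝ).symm.toContinuousLinearEquiv

theorem contDiffAt_mat {E : Type} [NormedAddCommGroup E] [NormedSpace ℝ E]
    {S : E → Matrix ι ι ℂ} {p : E} :
    ContDiffAt ℝ ∞ S p ↔ ∀ i j, ContDiffAt ℝ ∞ (fun q => S q i j) p := by
  rw [← (entL ι).comp_contDiffAt_iff, contDiffAt_pi]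
  exact forall_congr' fun i => contDiffAt_pi

theorem contDiff_mat {E : Type} [NormedAddCommGroup E] [NormedSpace ℝ E]
    {S : E → Matrix ι ι ℂ} : ContDiff ℝ ∞ S ↔ ∀ i j, ContDiff ℝ ∞ fun q => S q i j := by
  simp only [contDiff_iff_contDiffAt, contDiffAt_mat]
  exact ⟨fun h i j p => h p i j, fun h p i j => h i j p⟩

theorem pd_entry {S : (κ → ℝ) → Matrix ι ι ℂ} {p : κ → ℝ} (h : DifferentiableAt ℝ S p) (μ : κ)
    (i j : ι) : pd (fun q => S q i j) μ p = pd S μ p i j :=
  pd_clm (((ContinuousLinearMap.proj j).comp (ContinuousLinearMap.proj i)).comp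
    (entL ι : Matrix ι ι ℂ →L[ℝ] ι → ι → ℂ)) h μ

theorem wind_diag {S : (Fin 5 → ℝ) → Matrix ι ι ℂ} (h : Adm S) (hd : ∀ x, (S x).IsDiag) :
    wind (trL ι) S = 0 := by
  have hc : ∀ a b : Matrix ι ι ℂ, a.IsDiag → b.IsDiag → Commute a b := fun a b ha hb => by
    rw [← ha.diagonal_diag, ← hb.diagonal_diag]
    exact commute_diagonal _ _
  have hp : ∀ k x, (pd S k x).IsDiag := fun k x i j hij => by
    refine (pd_entry (h.sm.differentiable (by simp) x) k i j).symm.trans ?_
    rw [show (fun q => S q i j) = fun _ => 0 from funext fun q => hd q hij]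
    simp [pd]
  have : om (trL ι) S = fun _ => 0 := funext fun x => om_comm _ fun k l => by
    obtain ⟨u, hu⟩ := h.un x
    have h1 : ∀ m, Commute (↑u⁻¹ : Matrix ι ι ℂ) (pd S m x) := fun m =>
      Commute.units_inv_left (hu ▸ hc _ _ (hd x) (hp m x))
    simp only [mc, ← hu, Ring.inverse_unit]
    exact ((Commute.refl _).mul_right (h1 l)).mul_left
      ((h1 k).symm.mul_right (hc _ _ (hp k x) (hp l x)))
  simp [wind, this]

/-- block diagonal matrices -/
noncomputable def blk (ι κ : Type) [Fintype ι] [DecidableEq ι] [Fintype κ] [DecidableEq κ] :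
    (Matrix ι ι ℂ × Matrix κ κ ℂ) →L[ℝ] Matrix (ι ⊕ κ) (ι ⊕ κ) ℂ :=
  LinearMap.toContinuousLinearMap
    { toFun := fun z => fromBlocks z.1 0 0 z.2
      map_add' := fun z w => by simp [fromBlocks_add]
      map_smul' := fun c z => by simp [fromBlocks_smul] }

theorem trL_blk (a : Matrix ι ι ℂ) (b : Matrix κ κ ℂ) :
    trL (ι ⊕ κ) (fromBlocks a 0 0 b) = trL ι a + trL κ b := by
  simp [trL_apply, Matrix.trace]

theorem Adm.blocks {S : (Fin 5 → ℝ) → Matrix ι ι ℂ} {T : (Fin 5 → ℝ) → Matrix κ κ ℂ} (h : Adm S)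
    (h' : Adm T) : Adm fun x => fromBlocks (S x) 0 0 (T x) :=
  ⟨(blk ι κ).contDiff.comp (h.sm.prodMk h'.sm),
    fun x => isUnit_fromBlocks_zero₂₁.mpr ⟨h.un x, h'.un x⟩,
    fun k x => by simp only [h.per k x, h'.per k x]⟩

theorem wind_blocks {S : (Fin 5 → ℝ) → Matrix ι ι ℂ} {T : (Fin 5 → ℝ) → Matrix κ κ ℂ} (h : Adm S)
    (h' : Adm T) : wind (trL (ι ⊕ κ)) (fun x => fromBlocks (S x) 0 0 (T x)) =
      wind (trL ι) S + wind (trL κ) T := by
  have key : ∀ k x, mc (fun x => fromBlocks (S x) 0 0 (T x)) k x =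
      fromBlocks (mc S k x) 0 0 (mc T k x) := fun k x => mc_eq ((h.blocks h').un x) (by
    have d1 := h.sm.differentiable (by simp) x
    have d2 := h'.sm.differentiable (by simp) x
    refine Eq.trans ?_ (pd_clm (blk ι κ) (d1.prodMk d2) k).symm
    simp only [fromBlocks_multiply, mul_mc (h.un x), mul_mc (h'.un x), Matrix.mul_zero,
      Matrix.zero_mul, add_zero, zero_add]
    rw [pd, pd, pd, d1.fderiv_prodMk d2]
    rfl)
  unfold wind
  rw [← integral_add (h.cont _).continuousOn.integrableOn_Icc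
    (h'.cont _).continuousOn.integrableOn_Icc]
  congr 1
  funext x
  simp only [om, alt, key, pr5, Function.comp_apply, fromBlocks_multiply, Matrix.mul_zero,
    Matrix.zero_mul, add_zero, zero_add]
  rw [← Finset.sum_add_distrib]
  refine Finset.sum_congr rfl fun σ _ => ?_
  rw [← mul_add]
  exact congrArg _ (trL_blk _ _)

/-- a path from the identity to a quarter turn -/
noncomputable def rot (ι : Type) [Fintype ι] [DecidableEq ι] (t : ℝ) : Matrix (ι ⊕ ι) (ι ⊕ ι) ℂ :=
  (1 - t) • 1 + t • fromBlocks 0 (-1) 1 0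

theorem rot_unit (t : ℝ) : IsUnit (rot ι t) := by
  have h : (1 - t) ^ 2 + t ^ 2 ≠ 0 := by nlinarith [sq_nonneg (1 - 2 * t)]
  have hJ : (fromBlocks 0 (-1) 1 0 : Matrix (ι ⊕ ι) (ι ⊕ ι) ℂ) * fromBlocks 0 (-1) 1 0 = -1 := by
    simp [fromBlocks_multiply, ← fromBlocks_one, fromBlocks_neg]
  refine (isUnit_iff_isUnit_det _).mpr (isUnit_det_of_right_inverse
    (B := ((1 - t) ^ 2 + t ^ 2)⁻¹ • ((1 - t) • 1 - t • fromBlocks 0 (-1) 1 0)) ?_)
  rw [rot, mul_smul_comm, inv_smul_eq_iff₀ h]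
  simp only [add_mul, mul_sub, smul_mul_assoc, mul_smul_comm, one_mul, mul_one, hJ]
  module

theorem contDiff_rot : ContDiff ℝ ∞ (rot ι) :=
  ((contDiff_const.sub contDiff_id).smul contDiff_const).add (contDiff_id.smul contDiff_const)

theorem wind_mul {S T : (Fin 5 → ℝ) → Matrix ι ι ℂ} (h : Adm S) (h' : Adm T) :
    wind (trL ι) (fun x => S x * T x) = wind (trL ι) S + wind (trL ι) T := by
  have one : Adm fun _ : Fin 5 → ℝ => (1 : Matrix ι ι ℂ) := adm_const isUnit_one
  have a1 := h.blocks one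
  have a2 := h'.blocks one
  have a3 := h.blocks h'
  have h1 := wind_homotopy (trL (ι ⊕ ι)) trL_comm
    (fun t x => fromBlocks (S x) 0 0 1 * rot ι t * fromBlocks (T x) 0 0 1)
    (((a1.sm.comp contDiff_snd).mul (contDiff_rot.comp contDiff_fst)).mul
      (a2.sm.comp contDiff_snd)).contDiffOn
    (fun t _ x => ((a1.un x).mul (rot_unit t)).mul (a2.un x))
    fun t _ k x => by simp only [h.per k x, h'.per k x]
  have h2 := wind_homotopy (trL (ι ⊕ ι)) trL_comm
    (fun t x => fromBlocks (S x) 0 0 (T x) * rot ι t)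
    ((a3.sm.comp contDiff_snd).mul (contDiff_rot.comp contDiff_fst)).contDiffOn
    (fun t _ x => (a3.un x).mul (rot_unit t))
    fun t _ k x => by simp only [h.per k x, h'.per k x]
  simp only [rot, sub_zero, one_smul, zero_smul, add_zero, mul_one, sub_self, zero_add,
    fromBlocks_multiply, mul_zero, zero_mul, mul_neg, one_mul, neg_zero] at h1 h2
  rw [wind_blocks (h.mul h') one, wind_const, add_zero, ← h2, wind_blocks h h'] at h1
  exact h1

end Pool.Agent.P.MP_a67bd8_gt
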