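import Pool.Agent.P.MP_a67bd8_gt.D2
import Pool.Agent.P.MP_a67bd8_gt.E
import Pool.Agent.P.MP_a67bd8_gt.C3

/-! Renaming of coordinates and the final assembly. -/

namespace Pool.Agent.P.MP_a67bd8_gt.D

open Set Matrix
open scoped ContDiff Matrix.Norms.Operator

set_option linter.unusedSectionVars false

variable {ι κ : Type} [Fintype ι] [Fintype κ]

/-- renaming of coordinates -/
noncomputable def ren (e : ι ≃ κ) (V : Type) [NormedAddCommGroup V] [NormedSpace ℝ V] :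
    (κ → V) →L[ℝ] ι → V :=
  ContinuousLinearMap.pi fun i => ContinuousLinearMap.proj (e i)

theorem ren_inj (e : ι ≃ κ) (V : Type) [NormedAddCommGroup V] [NormedSpace ℝ V] :
    Function.Injective (ren e V) := fun u v h => funext fun k => by
  simpa [ren] using congrFun h (e.symm k)

/-- the renamed torus -/
def tra (e : ι ≃ κ) (f : (κ → Circle) → κ → ℂ) (c : ι → Circle) (i : ι) : ℂ :=
  f (fun k => c (e.symm k)) (e i)

theorem tra_cov (e : ι ≃ κ) (f : (κ → Circle) → κ → ℂ) :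
    (fun x => tra e f (cov x)) = ren e ℂ ∘ (fun x => f (cov x)) ∘ ren e.symm ℝ := rfl

theorem lag_tra (e : ι ≃ κ) {f : (κ → Circle) → κ → ℂ} (hf : IsLagTorus f) :
    IsLagTorus (tra e f) := by
  have hd : ∀ x, fderiv ℝ (fun x => tra e f (cov x)) x = (ren e ℂ).comp
      ((fderiv ℝ (fun x => f (cov x)) (ren e.symm ℝ x)).comp (ren e.symm ℝ)) := fun x =>
    ((ren e ℂ).hasFDerivAt.comp x ((hf.smooth.differentiable (by simp) _).hasFDerivAt.comp x
      (ren e.symm ℝ).hasFDerivAt)).fderiv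
  refine ⟨(ren e ℂ).contDiff.comp (hf.smooth.comp (ren e.symm ℝ).contDiff), fun c c' h => ?_,
    fun x => ?_, fun x u v => ?_⟩
  · funext i
    simpa using congrFun (hf.inj (ren_inj e ℂ h)) (e i)
  · rw [hd]
    exact (ren_inj e ℂ).comp ((hf.imm _).comp (ren_inj e.symm ℝ))
  · rw [hd, ← hf.lag (ren e.symm ℝ x) (ren e.symm ℝ u) (ren e.symm ℝ v), sympl, sympl,
      ← e.sum_comp]
    rfl

theorem range_tra (e : ι ≃ κ) (f : (κ → Circle) → κ → ℂ) :
    range (tra e f) = ren e ℂ '' range f := by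
  ext z
  constructor
  · rintro ⟨c, rfl⟩
    exact ⟨_, ⟨_, rfl⟩, rfl⟩
  · rintro ⟨_, ⟨c, rfl⟩, rfl⟩
    refine ⟨fun i => c (e i), funext fun i => ?_⟩
    simp [tra, ren]

theorem ren_clifford (e : ι ≃ κ) : ren e ℂ '' clifford κ = clifford ι := by
  ext z
  constructor
  · rintro ⟨u, hu, rfl⟩ i
    rw [Fintype.card_congr e]
    exact hu (e i)
  · refine fun h => ⟨fun k => z (e.symm k), fun k => ?_, funext fun i => by simp [ren]⟩
    rw [← Fintype.card_congr e]
    exact h _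

theorem iso_tra (e : ι ≃ κ) {L₀ L₁ : Set (κ → ℂ)} (h : LagIsotopic L₀ L₁) :
    LagIsotopic (ren e ℂ '' L₀) (ren e ℂ '' L₁) := by
  obtain ⟨F, h1, h2, rfl, rfl⟩ := h
  exact ⟨fun t => tra e (F t), (ren e ℂ).contDiff.comp_contDiffOn
    (h1.comp (f := fun z : ℝ × (ι → ℝ) => (z.1, ren e.symm ℝ z.2))
      (contDiff_fst.prodMk ((ren e.symm ℝ).contDiff.comp contDiff_snd)).contDiffOn
      fun z hz => ⟨hz.1, trivial⟩),
    fun t ht => lag_tra e (h2 t ht), range_tra e _, range_tra e _⟩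

theorem stC_sum (μ : Type) [Fintype μ] [DecidableEq μ] [DecidableEq κ] (h : StC κ) :
    StC (κ ⊕ μ) := by
  obtain ⟨g, h1, h2, h3, h4⟩ := h
  have a : Adm g := (⟨h1, h2, h3⟩ : Dat g).adm
  have one : Adm fun _ : Fin 5 → ℝ => (1 : Matrix μ μ ℂ) := adm_const isUnit_one
  refine ⟨fun x => fromBlocks (g x) 0 0 1, contDiff_mat.mp (a.blocks one).sm, (a.blocks one).per,
    fun x => ?_, ?_⟩
  · have := h3 x
    rw [star_eq_conjTranspose] at this ⊢
    simp [fromBlocks_conjTranspose, fromBlocks_multiply, this]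
  · rwa [wind_blocks a one, wind_const, add_zero]

theorem final (n : ℕ) (hn : 8 ≤ n) : ∃ f : (Fin n → Circle) → Fin n → ℂ,
    IsLagTorus f ∧ ¬LagIsotopic (range f) (clifford (Fin n)) := by
  obtain ⟨f, h1, h2⟩ := main stE (stC_sum (Fin (n - 8)) stC3)
  let e : Fin n ≃ Fin 5 ⊕ Fin 3 ⊕ Fin (n - 8) := Fintype.equivOfCardEq (by simp; omega)
  refine ⟨tra e f, lag_tra e h1, fun h => h2 ?_⟩
  have := iso_tra e.symm h
  rw [ren_clifford, ← range_tra] at this
  convert this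
  funext c i
  simp [tra]

end Pool.Agent.P.MP_a67bd8_gt.D
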